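import Pool.Agent.W2helper90.Zombie.Pot

/-!
# The expected number of zombies caught along a path, one zombie at every point
-/

set_option autoImplicit false

namespace Pool.Agent.W2helper90.Zombie

open Finset

theorem abs_ge {q y : ℝ} (hq : 0 < q) : 3 / (2 * q) * y ^ 2 - 1 / (2 * q ^ 3) * y ^ 4 ≤ |y| := by
  have h0 := abs_nonneg y
  rw [← sq_abs y, show y ^ 4 = |y| ^ 4 by rw [← abs_pow, abs_of_nonneg (by positivity)]]
  set x := |y|
  have h : x - (3 / (2 * q) * x ^ 2 - 1 / (2 * q ^ 3) * x ^ 4) =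
      x * (x - q) ^ 2 * (x + 2 * q) / (2 * q ^ 3) := by
    field_simp
    ring
  have : 0 ≤ x * (x - q) ^ 2 * (x + 2 * q) / (2 * q ^ 3) := by positivity
  linarith

/-- the shift -/
noncomputable def sh : List (ℤ × ℤ) → ℝ
  | [] => 0
  | m :: ms => (1 - 2 * vm m) + sh ms

theorem Psi_ge {α β : ℝ} (h : ∀ y : ℝ, α * y ^ 2 - β * y ^ 4 ≤ |y|) (ms : List (ℤ × ℤ)) :
    ∀ a b w T : ℝ, w = b - a + sh ms → T = ms.length →
      (a + b) / 2 + (1 / 2) * (α * (w ^ 2 + T) -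
        β * (w ^ 4 + 6 * T * w ^ 2 + 3 * T ^ 2 - 2 * T)) ≤ Psi ms a b := by
  induction ms with
  | nil =>
    intro a b w T hw hT
    simp only [sh, add_zero, List.length_nil, Nat.cast_zero] at hw hT
    subst hw hT
    simp only [Psi]
    have h1 := h (b - a)
    have h2 : max a b = (a + b) / 2 + |b - a| / 2 := by
      rcases le_total a b with hab | hab
      · rw [max_eq_right hab, abs_of_nonneg (by linarith)]
        ring
      · rw [max_eq_left hab, abs_of_nonpos (by linarith)]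
        ring
    rw [h2]
    nlinarith
  | cons m ms ih =>
    intro a b w T hw hT
    simp only [sh, List.length_cons, Nat.cast_add, Nat.cast_one] at hw hT
    simp only [Psi]
    have h1 := ih (a - (1 - vm m)) (b + (1 - vm m)) (w + 1) (T - 1) (by rw [hw]; ring)
      (by rw [hT]; ring)
    have h2 := ih (a + vm m) (b - vm m) (w - 1) (T - 1) (by rw [hw]; ring)
      (by rw [hT]; ring)
    nlinarith

theorem Psi_zero (ms : List (ℤ × ℤ)) : (1 / 2) * Real.sqrt (ms.length / 3) ≤ Psi ms 0 0 := by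
  rcases Nat.eq_zero_or_pos ms.length with h0 | hpos
  · rw [List.length_eq_zero_iff] at h0
    subst h0
    simp [Psi]
  obtain ⟨T, hT⟩ : ∃ T : ℝ, T = ms.length := ⟨_, rfl⟩
  rw [← hT]
  have hT0 : 0 < T := by
    rw [hT]
    exact_mod_cast hpos
  obtain ⟨w, hw⟩ : ∃ w : ℝ, w = sh ms := ⟨_, rfl⟩
  have hM : 0 < T + w ^ 2 := by positivity
  set q := Real.sqrt (3 * (T + w ^ 2)) with hq
  have hq0 : 0 < q := Real.sqrt_pos.2 (by positivity)
  have hq2 : q ^ 2 = 3 * (T + w ^ 2) := Real.sq_sqrt (by positivity)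
  have h1 := Psi_ge (α := 3 / (2 * q)) (β := 1 / (2 * q ^ 3)) (fun y => abs_ge hq0) ms 0 0 w T
    (by simp [hw]) hT
  have h2 : Real.sqrt (T / 3) ≤ q / 3 := by
    rw [Real.sqrt_le_left (by positivity), div_pow, hq2]
    nlinarith [sq_nonneg w]
  have h3 : q / 3 ≤ 3 / (2 * q) * (w ^ 2 + T) -
      1 / (2 * q ^ 3) * (w ^ 4 + 6 * T * w ^ 2 + 3 * T ^ 2 - 2 * T) := by
    have e1 : 1 / (2 * q ^ 3) * (w ^ 4 + 6 * T * w ^ 2 + 3 * T ^ 2 - 2 * T) ≤
        1 / (2 * q ^ 3) * (3 * (T + w ^ 2) ^ 2) := by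
      apply mul_le_mul_of_nonneg_left _ (by positivity)
      nlinarith [sq_nonneg (w ^ 2)]
    have e2 : 3 / (2 * q) * (w ^ 2 + T) - 1 / (2 * q ^ 3) * (3 * (T + w ^ 2) ^ 2) = q / 3 := by
      have e3 : T + w ^ 2 = q ^ 2 / 3 := by rw [hq2]; ring
      rw [add_comm (w ^ 2) T, e3]
      field_simp
      ring
    linarith
  linarith

/-! ### Sums over boxes -/

theorem sum_tow (g : ℤ → ℝ) {R : ℤ} (hR : 1 ≤ R) :
    ∑ a ∈ Icc (-R) R, (if a = 0 then 0 else g (tow a)) =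
      ∑ a ∈ Icc (-(R - 1)) (R - 1), g a + g 0 := by
  have h1 : Icc (-R) R = Ico (-R) 0 ∪ ({0} ∪ Ioc 0 R) := by
    ext x
    simp only [Finset.mem_Icc, Finset.mem_union, Finset.mem_Ico, Finset.mem_singleton,
      Finset.mem_Ioc]
    omega
  have h2 : Icc (-(R - 1)) (R - 1) = Ico (-R + 1) 0 ∪ Ico 0 R := by
    ext x
    simp only [Finset.mem_Icc, Finset.mem_union, Finset.mem_Ico]
    omega
  have d1 : Disjoint (Ico (-R) 0) ({0} ∪ Ioc 0 R) := by
    rw [Finset.disjoint_left]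
    intro x
    simp only [Finset.mem_union, Finset.mem_Ico, Finset.mem_singleton, Finset.mem_Ioc]
    omega
  have d2 : Disjoint ({0} : Finset ℤ) (Ioc 0 R) := by
    simp
  have d3 : Disjoint (Ico (-R + 1) 0) (Ico 0 R) := by
    rw [Finset.disjoint_left]
    intro x
    simp only [Finset.mem_Ico]
    omega
  rw [h1, Finset.sum_union d1, Finset.sum_union d2, h2, Finset.sum_union d3]
  have e1 : ∑ a ∈ Ico (-R) 0, (if a = 0 then 0 else g (tow a)) = ∑ a ∈ Ico (-R) 0, g (a - -1) := by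
    apply Finset.sum_congr rfl
    intro a ha
    rw [Finset.mem_Ico] at ha
    rw [if_neg (by omega), tow_of_neg ha.2]
    congr 1
  have e2 : ∑ a ∈ Ioc 0 R, (if a = 0 then 0 else g (tow a)) = ∑ a ∈ Ico 1 (R + 1), g (a - 1) := by
    have : Ioc 0 R = Ico 1 (R + 1) := by
      ext x
      simp only [Finset.mem_Ioc, Finset.mem_Ico]
      omega
    rw [this]
    apply Finset.sum_congr rfl
    intro a ha
    rw [Finset.mem_Ico] at ha
    rw [if_neg (by omega), tow_pos (by omega)]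
  rw [e1, e2, sum_shift g, sum_shift g]
  have e3 : Ico (-R - -1) (0 - -1) = insert 0 (Ico (-R + 1) 0) := by
    ext x
    simp only [Finset.mem_insert, Finset.mem_Ico]
    omega
  rw [e3, Finset.sum_insert (by simp)]
  simp only [Finset.sum_singleton, if_true, sub_self, add_sub_cancel_right]
  ring

theorem box {w : ℤ → ℤ → ℝ} (hw : ∀ a b, 0 ≤ w a b) {R : ℤ} (hR : 1 ≤ R) :
    (∑ a ∈ Icc (-(R - 1)) (R - 1), ∑ b ∈ Icc (-(R - 1)) (R - 1), w a b) +
      (∑ a ∈ Icc (-(R - 1)) (R - 1), w a 0) + (∑ b ∈ Icc (-(R - 1)) (R - 1), w 0 b) + w 0 0 ≤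
    ∑ a ∈ Icc (-R) R, ∑ b ∈ Icc (-R) R, K w a b := by
  have hK : ∀ a b, K w a b =
      (if a = 0 then (if b = 0 then 0 else w 0 (tow b)) else 0) +
      (if b = 0 then (if a = 0 then 0 else w (tow a) 0) else 0) +
      (1 / 2) * (if b = 0 then 0 else (if a = 0 then 0 else w (tow a) b)) +
      (1 / 2) * (if a = 0 then 0 else (if b = 0 then 0 else w a (tow b))) := by
    intro a b
    unfold K
    by_cases ha : a = 0 <;> by_cases hb : b = 0 <;> simp [ha, hb]
  have h0 : (0 : ℤ) ∈ Icc (-R) R := by rw [Finset.mem_Icc]; omega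
  have h0' : (0 : ℤ) ∈ Icc (-(R - 1)) (R - 1) := by rw [Finset.mem_Icc]; omega
  have hsub : Icc (-(R - 1)) (R - 1) ⊆ Icc (-R) R := Finset.Icc_subset_Icc (by omega) (by omega)
  have t1 : ∑ a ∈ Icc (-R) R, ∑ b ∈ Icc (-R) R,
      (if a = 0 then (if b = 0 then 0 else w 0 (tow b)) else 0) =
      ∑ b ∈ Icc (-(R - 1)) (R - 1), w 0 b + w 0 0 := by
    rw [← sum_tow (fun b => w 0 b) hR]
    rw [Finset.sum_eq_single_of_mem 0 h0]
    · simp
    · intro a _ ha
      simp [ha]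
  have t2 : ∑ a ∈ Icc (-R) R, ∑ b ∈ Icc (-R) R,
      (if b = 0 then (if a = 0 then 0 else w (tow a) 0) else 0) =
      ∑ a ∈ Icc (-(R - 1)) (R - 1), w a 0 + w 0 0 := by
    rw [← sum_tow (fun a => w a 0) hR, Finset.sum_comm]
    rw [Finset.sum_eq_single_of_mem 0 h0]
    · simp
    · intro a _ ha
      simp [ha]
  have t3 : ∑ b ∈ Icc (-(R - 1)) (R - 1), (∑ a ∈ Icc (-(R - 1)) (R - 1), w a b + w 0 b) -
      (∑ a ∈ Icc (-(R - 1)) (R - 1), w a 0 + w 0 0) ≤
      ∑ a ∈ Icc (-R) R, ∑ b ∈ Icc (-R) R,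
        (if b = 0 then 0 else (if a = 0 then 0 else w (tow a) b)) := by
    rw [Finset.sum_comm (s := Icc (-R) R)]
    have : ∀ b ∈ Icc (-R) R, ∑ a ∈ Icc (-R) R,
        (if b = 0 then 0 else (if a = 0 then 0 else w (tow a) b)) =
        if b = 0 then 0 else (∑ a ∈ Icc (-(R - 1)) (R - 1), w a b + w 0 b) := by
      intro b _
      split_ifs with hb
      · simp
      · exact sum_tow (fun a => w a b) hR
    rw [Finset.sum_congr rfl this]
    refine le_trans ?_ (Finset.sum_le_sum_of_subset_of_nonneg hsub ?_)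
    · rw [← Finset.add_sum_erase _ _ h0', ← Finset.add_sum_erase (Icc (-(R - 1)) (R - 1))
        (fun b => if b = 0 then 0 else (∑ a ∈ Icc (-(R - 1)) (R - 1), w a b + w 0 b)) h0']
      simp only [if_true, zero_add, add_sub_cancel_left]
      apply Finset.sum_le_sum
      intro b hb
      rw [if_neg (Finset.ne_of_mem_erase hb)]
    · intro b _ _
      split_ifs
      · exact le_rfl
      · have := hw 0 b
        have := Finset.sum_nonneg fun a (_ : a ∈ Icc (-(R - 1)) (R - 1)) => hw a b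
        linarith
  have t4 : ∑ a ∈ Icc (-(R - 1)) (R - 1), (∑ b ∈ Icc (-(R - 1)) (R - 1), w a b + w a 0) -
      (∑ b ∈ Icc (-(R - 1)) (R - 1), w 0 b + w 0 0) ≤
      ∑ a ∈ Icc (-R) R, ∑ b ∈ Icc (-R) R,
        (if a = 0 then 0 else (if b = 0 then 0 else w a (tow b))) := by
    have : ∀ a ∈ Icc (-R) R, ∑ b ∈ Icc (-R) R,
        (if a = 0 then 0 else (if b = 0 then 0 else w a (tow b))) =
        if a = 0 then 0 else (∑ b ∈ Icc (-(R - 1)) (R - 1), w a b + w a 0) := by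
      intro a _
      split_ifs with ha
      · simp
      · exact sum_tow (fun b => w a b) hR
    rw [Finset.sum_congr rfl this]
    refine le_trans ?_ (Finset.sum_le_sum_of_subset_of_nonneg hsub ?_)
    · rw [← Finset.add_sum_erase _ _ h0', ← Finset.add_sum_erase (Icc (-(R - 1)) (R - 1))
        (fun a => if a = 0 then 0 else (∑ b ∈ Icc (-(R - 1)) (R - 1), w a b + w a 0)) h0']
      simp only [if_true, zero_add, add_sub_cancel_left]
      apply Finset.sum_le_sum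
      intro b hb
      rw [if_neg (Finset.ne_of_mem_erase hb)]
    · intro b _ _
      split_ifs
      · exact le_rfl
      · have := hw b 0
        have := Finset.sum_nonneg fun a (_ : a ∈ Icc (-(R - 1)) (R - 1)) => hw b a
        linarith
  simp only [hK, Finset.sum_add_distrib, ← Finset.mul_sum]
  rw [t1, t2]
  rw [Finset.sum_add_distrib] at t3 t4
  have hc : ∑ b ∈ Icc (-(R - 1)) (R - 1), ∑ a ∈ Icc (-(R - 1)) (R - 1), w a b =
      ∑ a ∈ Icc (-(R - 1)) (R - 1), ∑ b ∈ Icc (-(R - 1)) (R - 1), w a b := Finset.sum_comm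
  rw [hc] at t3
  linarith

/-- Number of zombies caught, summed over the starting points in a box. -/
noncomputable def NN (ms : List (ℤ × ℤ)) (R : ℤ) : ℝ :=
  ∑ a ∈ Icc (-R) R, ∑ b ∈ Icc (-R) R, u ms a b

theorem phi_start {m : ℤ × ℤ} (hm : IsMove m) :
    Phi m.2 m.1 (adj (-m.1) 0) (adj m.1 0) (adj m.2 0) (adj (-m.2) 0) ≤ 2 := by
  rcases hm with h | h | h | h | h <;> subst h <;> decide

theorem sides (ms : List (ℤ × ℤ)) (hms : ∀ m ∈ ms, IsMove m) {m : ℤ × ℤ} (hm : IsMove m)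
    {R : ℤ} (hR : 2 * (ms.length : ℤ) + 2 ≤ R) :
    (3 / 2) * Psi ms 0 0 - 2 ≤
      (∑ a ∈ Ico 1 R, u ms (a - m.1) (0 - m.2)) + (∑ a ∈ Ico 1 R, u ms (-a - m.1) (0 - m.2)) +
      (∑ b ∈ Ico 1 R, u ms (0 - m.1) (b - m.2)) + (∑ b ∈ Ico 1 R, u ms (0 - m.1) (-b - m.2)) := by
  have hb := hm.bound
  have hx : |m.1| ≤ 1 := by
    have := abs_nonneg m.2
    omega
  have hy : |m.2| ≤ 1 := by
    have := abs_nonneg m.1
    omega
  obtain ⟨hx1, hx2⟩ := abs_le.1 hx
  obtain ⟨hy1, hy2⟩ := abs_le.1 hy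
  have b1 : ∀ m' ∈ ms, |m'.1| ≤ 1 := by
    intro m' hm'
    have h1 := (hms m' hm').bound
    have h2 := abs_nonneg m'.2
    omega
  have b1' : ∀ m' ∈ ms, |m'.2| ≤ 1 := by
    intro m' hm'
    have h1 := (hms m' hm').bound
    have h2 := abs_nonneg m'.1
    omega
  have b2 : ∀ m' ∈ mX ms, |m'.1| ≤ 1 := by
    intro m' hm'
    obtain ⟨m1, h, rfl⟩ := List.mem_map.1 hm'
    simpa using b1 m1 h
  have b3 : ∀ m' ∈ sw ms, |m'.1| ≤ 1 := by
    intro m' hm'
    obtain ⟨m1, h, rfl⟩ := List.mem_map.1 hm'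
    simpa using b1' m1 h
  have b4 : ∀ m' ∈ sw (mY ms), |m'.1| ≤ 1 := by
    intro m' hm'
    obtain ⟨m1, h, rfl⟩ := List.mem_map.1 hm'
    obtain ⟨m2, h', rfl⟩ := List.mem_map.1 h
    simpa using b1' m2 h'
  have j := joint ms hms m.2 m.1 (adj (-m.1) 0) (adj m.1 0) (adj m.2 0) (adj (-m.2) 0)
  have hphi : (Phi m.2 m.1 (adj (-m.1) 0) (adj m.1 0) (adj m.2 0) (adj (-m.2) 0) : ℝ) ≤ 2 := by
    exact_mod_cast phi_start hm
  have hpsi := Psi_le ms (a := 0) (b := 0) (a' := |(m.2 : ℝ)|) (b' := |(m.1 : ℝ)|) (δ := 0)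
    (by simp) (by simp)
  have r1 := sV_le ms b1 m.2 (adj m.1 0) (R - m.1) (by unfold adj; omega)
  have r2 := sV_le (mX ms) b2 m.2 (adj (-m.1) 0) (R + m.1) (by
    unfold adj
    simp only [mX, List.length_map]
    omega)
  have r3 := sV_le (sw ms) b3 m.1 (adj m.2 0) (R - m.2) (by
    unfold adj
    simp only [sw, List.length_map]
    omega)
  have r4 := sV_le (sw (mY ms)) b4 m.1 (adj (-m.2) 0) (R + m.2) (by
    unfold adj
    simp only [sw, mY, List.length_map]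
    omega)
  have s1 : ∑ a ∈ Ico ((adj m.1 0 : ℤ) + 1) (R - m.1), u ms a (-m.2) ≤
      ∑ a ∈ Ico 1 R, u ms (a - m.1) (0 - m.2) := by
    have := sum_shift (fun a => u ms a (-m.2)) 1 R m.1
    rw [zero_sub, this]
    exact sum_sub (f := fun a => u ms a (-m.2)) (fun a => u_nonneg _ _ _) (by unfold adj; omega)
      le_rfl
  have s2 : ∑ a ∈ Ico ((adj (-m.1) 0 : ℤ) + 1) (R + m.1), u (mX ms) a (-m.2) ≤
      ∑ a ∈ Ico 1 R, u ms (-a - m.1) (0 - m.2) := by
    have e : ∀ a ∈ Ico 1 R, u ms (-a - m.1) (0 - m.2) = (fun a => u (mX ms) a (-m.2)) (a - -m.1) := by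
      intro a _
      show _ = u (mX ms) (a - -m.1) (-m.2)
      rw [← u_mX ms, zero_sub]
      congr 1
      ring
    rw [Finset.sum_congr rfl e, sum_shift (fun a => u (mX ms) a (-m.2))]
    exact sum_sub (f := fun a => u (mX ms) a (-m.2)) (fun a => u_nonneg _ _ _)
      (by unfold adj; omega) (by omega)
  have s3 : ∑ a ∈ Ico ((adj m.2 0 : ℤ) + 1) (R - m.2), u (sw ms) a (-m.1) ≤
      ∑ b ∈ Ico 1 R, u ms (0 - m.1) (b - m.2) := by
    have e : ∀ b ∈ Ico 1 R, u ms (0 - m.1) (b - m.2) = (fun a => u (sw ms) a (-m.1)) (b - m.2) := by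
      intro b _
      show _ = u (sw ms) (b - m.2) (-m.1)
      rw [u_sw, zero_sub]
    rw [Finset.sum_congr rfl e, sum_shift (fun a => u (sw ms) a (-m.1))]
    exact sum_sub (f := fun a => u (sw ms) a (-m.1)) (fun a => u_nonneg _ _ _)
      (by unfold adj; omega) le_rfl
  have s4 : ∑ a ∈ Ico ((adj (-m.2) 0 : ℤ) + 1) (R + m.2), u (sw (mY ms)) a (-m.1) ≤
      ∑ b ∈ Ico 1 R, u ms (0 - m.1) (-b - m.2) := by
    have e : ∀ b ∈ Ico 1 R, u ms (0 - m.1) (-b - m.2) =
        (fun a => u (sw (mY ms)) a (-m.1)) (b - -m.2) := by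
      intro b _
      show _ = u (sw (mY ms)) (b - -m.2) (-m.1)
      rw [u_sw, ← u_mY ms, zero_sub]
      congr 1
      ring
    rw [Finset.sum_congr rfl e, sum_shift (fun a => u (sw (mY ms)) a (-m.1))]
    exact sum_sub (f := fun a => u (sw (mY ms)) a (-m.1)) (fun a => u_nonneg _ _ _)
      (by unfold adj; omega) (by omega)
  linarith

theorem axis (f : ℤ → ℝ) {R : ℤ} (hR : 1 ≤ R) :
    ∑ a ∈ Icc (-(R - 1)) (R - 1), f a = f 0 + ∑ a ∈ Ico 1 R, f a + ∑ a ∈ Ico 1 R, f (-a) := by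
  have h1 : Icc (-(R - 1)) (R - 1) = {0} ∪ (Ico 1 R ∪ Ioc (-R) (-1)) := by
    ext x
    simp only [Finset.mem_Icc, Finset.mem_union, Finset.mem_Ico, Finset.mem_singleton,
      Finset.mem_Ioc]
    omega
  have d1 : Disjoint ({0} : Finset ℤ) (Ico 1 R ∪ Ioc (-R) (-1)) := by
    rw [Finset.disjoint_left]
    intro x
    simp only [Finset.mem_union, Finset.mem_Ico, Finset.mem_singleton, Finset.mem_Ioc]
    omega
  have d2 : Disjoint (Ico 1 R) (Ioc (-R) (-1)) := by
    rw [Finset.disjoint_left]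
    intro x
    simp only [Finset.mem_Ico, Finset.mem_Ioc]
    omega
  rw [h1, Finset.sum_union d1, Finset.sum_union d2, Finset.sum_singleton]
  have : ∑ a ∈ Ioc (-R) (-1), f a = ∑ a ∈ Ico 1 R, f (-a) := by
    symm
    apply Finset.sum_nbij' (fun a => -a) (fun a => -a)
    · intro a ha
      simp only [Finset.mem_Ico, Finset.mem_Ioc] at ha ⊢
      omega
    · intro a ha
      simp only [Finset.mem_Ico, Finset.mem_Ioc] at ha ⊢
      omega
    · intro a _
      simp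
    · intro a _
      simp
    · intro a _
      rfl
  rw [this]
  ring

theorem NN_cons (ms : List (ℤ × ℤ)) (hms : ∀ m ∈ ms, IsMove m) {m : ℤ × ℤ} (hm : IsMove m)
    {R : ℤ} (hR : 2 * (ms.length : ℤ) + 2 ≤ R) :
    NN ms (R - 2) + 2 + (3 / 2) * Psi ms 0 0 ≤ NN (m :: ms) R := by
  have hR1 : 1 ≤ R := by
    have : (0 : ℤ) ≤ ms.length := by positivity
    omega
  have hb := hm.bound
  have hx : |m.1| ≤ 1 := by
    have := abs_nonneg m.2
    omega
  have hy : |m.2| ≤ 1 := by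
    have := abs_nonneg m.1
    omega
  obtain ⟨hx1, hx2⟩ := abs_le.1 hx
  obtain ⟨hy1, hy2⟩ := abs_le.1 hy
  have h0 : (0 : ℤ) ∈ Icc (-R) R := by rw [Finset.mem_Icc]; omega
  have h0' : (0 : ℤ) ∈ Icc (-(R - 1)) (R - 1) := by rw [Finset.mem_Icc]; omega
  set w : ℤ → ℤ → ℝ := fun x y => if x = 0 ∧ y = 0 then 1 else u ms (x - m.1) (y - m.2) with hw
  have hw0 : ∀ a b, 0 ≤ w a b := by
    intro a b
    rw [hw]
    simp only
    split_ifs
    · norm_num
    · exact u_nonneg _ _ _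
  have hwu : ∀ a b, u ms (a - m.1) (b - m.2) ≤ w a b := by
    intro a b
    rw [hw]
    simp only
    split_ifs
    · exact u_le_one _ _ _
    · exact le_rfl
  have e1 : NN (m :: ms) R = 1 + ∑ a ∈ Icc (-R) R, ∑ b ∈ Icc (-R) R, K w a b := by
    have : ∀ a b, u (m :: ms) a b = (if a = 0 ∧ b = 0 then 1 else 0) + K w a b := by
      intro a b
      by_cases h : a = 0 ∧ b = 0
      · obtain ⟨rfl, rfl⟩ := h
        simp [u, K]
      · simp only [u, h, if_false, zero_add, hw]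
    unfold NN
    simp only [this, Finset.sum_add_distrib]
    congr 1
    rw [Finset.sum_eq_single_of_mem 0 h0, Finset.sum_eq_single_of_mem 0 h0]
    · simp
    · intro b _ hb
      simp [hb]
    · intro a _ ha
      simp [ha]
  have e2 := box hw0 hR1
  have e3 : NN ms (R - 2) ≤ ∑ a ∈ Icc (-(R - 1)) (R - 1), ∑ b ∈ Icc (-(R - 1)) (R - 1), w a b := by
    have k1 : ∀ f : ℤ → ℝ, (∀ x, 0 ≤ f x) → ∀ d : ℤ, -1 ≤ d → d ≤ 1 →
        ∑ x ∈ Icc (-(R - 2)) (R - 2), f x ≤ ∑ x ∈ Icc (-(R - 1)) (R - 1), f (x - d) := by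
      intro f hf d hd1 hd2
      have i1 : Icc (-(R - 1)) (R - 1) = Ico (-(R - 1)) R := by
        ext x
        simp only [Finset.mem_Icc, Finset.mem_Ico]
        omega
      have i2 : Icc (-(R - 2)) (R - 2) = Ico (-(R - 2)) (R - 1) := by
        ext x
        simp only [Finset.mem_Icc, Finset.mem_Ico]
        omega
      rw [i1, i2, sum_shift f]
      exact sum_sub hf (by omega) (by omega)
    unfold NN
    calc ∑ a ∈ Icc (-(R - 2)) (R - 2), ∑ b ∈ Icc (-(R - 2)) (R - 2), u ms a b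
        ≤ ∑ a ∈ Icc (-(R - 1)) (R - 1), ∑ b ∈ Icc (-(R - 2)) (R - 2), u ms (a - m.1) b :=
          k1 (fun a => ∑ b ∈ Icc (-(R - 2)) (R - 2), u ms a b)
            (fun a => Finset.sum_nonneg fun b _ => u_nonneg _ _ _) m.1 hx1 hx2
      _ ≤ ∑ a ∈ Icc (-(R - 1)) (R - 1), ∑ b ∈ Icc (-(R - 1)) (R - 1), u ms (a - m.1) (b - m.2) :=
          Finset.sum_le_sum fun a _ => k1 (fun b => u ms (a - m.1) b) (fun b => u_nonneg _ _ _)
            m.2 hy1 hy2
      _ ≤ _ := Finset.sum_le_sum fun a _ => Finset.sum_le_sum fun b _ => hwu a b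
  have e4 := axis (fun a => w a 0) hR1
  have e5 := axis (fun b => w 0 b) hR1
  have hw00 : w 0 0 = 1 := by simp [hw]
  have f1 : ∑ a ∈ Ico 1 R, u ms (a - m.1) (0 - m.2) ≤ ∑ a ∈ Ico 1 R, w a 0 :=
    Finset.sum_le_sum fun a _ => hwu a 0
  have f2 : ∑ a ∈ Ico 1 R, u ms (-a - m.1) (0 - m.2) ≤ ∑ a ∈ Ico 1 R, w (-a) 0 :=
    Finset.sum_le_sum fun a _ => hwu (-a) 0
  have f3 : ∑ a ∈ Ico 1 R, u ms (0 - m.1) (a - m.2) ≤ ∑ a ∈ Ico 1 R, w 0 a :=
    Finset.sum_le_sum fun a _ => hwu 0 a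
  have f4 : ∑ a ∈ Ico 1 R, u ms (0 - m.1) (-a - m.2) ≤ ∑ a ∈ Ico 1 R, w 0 (-a) :=
    Finset.sum_le_sum fun a _ => hwu 0 (-a)
  have f5 := sides ms hms hm hR
  rw [e1]
  rw [hw00] at e2 e4 e5
  linarith

/-- **Many starting points are bad.** -/
theorem NN_ge (ms : List (ℤ × ℤ)) (hms : ∀ m ∈ ms, IsMove m) :
    ∀ R : ℤ, 2 * (ms.length : ℤ) ≤ R →
      1 + (ms.length : ℝ) * Real.sqrt ms.length / 4 ≤ NN ms R := by
  induction ms with
  | nil =>
    intro R hR
    simp only [List.length_nil, Nat.cast_zero, mul_zero] at hR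
    have h0 : (0 : ℤ) ∈ Icc (-R) R := by rw [Finset.mem_Icc]; omega
    unfold NN
    rw [Finset.sum_eq_single_of_mem 0 h0, Finset.sum_eq_single_of_mem 0 h0]
    · simp [u]
    · intro b _ hb
      simp [u, hb]
    · intro a _ ha
      simp [u, ha]
  | cons m ms ih =>
    intro R hR
    have hms' : ∀ m' ∈ ms, IsMove m' := fun m' hm' => hms m' (List.mem_cons_of_mem _ hm')
    have ih := ih hms'
    rw [List.length_cons] at hR
    push_cast at hR
    have h1 := NN_cons ms hms' (hms m List.mem_cons_self) (R := R) (by omega)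
    have h2 := ih (R - 2) (by omega)
    have h3 := Psi_zero ms
    rw [List.length_cons]
    push_cast
    obtain ⟨T, hT⟩ : ∃ T : ℝ, T = ms.length := ⟨_, rfl⟩
    rw [← hT] at h2 h3 ⊢
    have hT0 : 0 ≤ T := by
      rw [hT]
      positivity
    set s := Real.sqrt T with hs
    set r := Real.sqrt (T + 1) with hr
    have hs0 : 0 ≤ s := Real.sqrt_nonneg _
    have hr0 : 0 ≤ r := Real.sqrt_nonneg _
    have hs2 : s ^ 2 = T := Real.sq_sqrt hT0
    have hr2 : r ^ 2 = T + 1 := Real.sq_sqrt (by linarith)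
    have h4 : (577 / 1000) * s ≤ Real.sqrt (T / 3) := by
      apply Real.le_sqrt_of_sq_le
      rw [mul_pow, hs2]
      nlinarith
    have h5 : r ≤ s + 1 := by
      apply Real.sqrt_le_iff.2
      constructor
      · linarith
      · nlinarith
    have h6 : s ≤ r := Real.sqrt_le_sqrt (by linarith)
    -- `(T + 1) r ≤ T s + (3 / 2) r`
    have h7 : (T + 1) * r ≤ T * s + (3 / 2) * r := by
      rw [← hr2, ← hs2]
      have h8 : r ^ 2 - s ^ 2 = 1 := by linarith
      have h9 : (r - s) * (r + s) = 1 := by nlinarith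
      have h10 : 0 < r := by
        rw [hr]
        exact Real.sqrt_pos.2 (by linarith)
      have h12 : r ^ 2 * r - s ^ 2 * s = (r - s) * (r ^ 2 + r * s + s ^ 2) := by ring
      have h13 : (r - s) * (r ^ 2 + r * s + s ^ 2) ≤ (r - s) * ((3 / 2) * r * (r + s)) := by
        apply mul_le_mul_of_nonneg_left _ (by linarith)
        nlinarith
      have h14 : (r - s) * ((3 / 2) * r * (r + s)) = (3 / 2) * r := by
        calc (r - s) * ((3 / 2) * r * (r + s)) = (3 / 2) * r * ((r - s) * (r + s)) := by ring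
          _ = _ := by rw [h9, mul_one]
      linarith
    nlinarith

end Pool.Agent.W2helper90.Zombie
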