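import Mathlib

/-!
# Zombies and Survivors

The game is played on a finite connected graph `G` with `k` zombies. The zombies start at
independent uniformly random vertices; then the survivor chooses his start. In each round every
zombie moves, independently of the others, to a random neighbour on a shortest path to the survivor,
and then the survivor moves to a neighbour or stays. He is eaten as soon as he and a zombie are at
the same vertex.
-/

set_option autoImplicit false

namespace Pool.Agent.W2helper90.ZombieGame

open Finset

variable {V : Type} [Fintype V] [DecidableEq V]

/-- The neighbours of `x` which lie on a shortest path from `x` to `s`. -/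
noncomputable def closer (G : SimpleGraph V) (s x : V) : Finset V := by
  classical
  exact univ.filter fun y => G.Adj x y ∧ G.dist x s = G.dist y s + 1

/-- The probability that a zombie at `x` moves to `y` when the survivor is at `s`. -/
noncomputable def step (G : SimpleGraph V) (s x y : V) : ℝ :=
  if y ∈ closer G s x then 1 / ((closer G s x).card : ℝ) else 0

/-- A strategy of the survivor against `k` zombies. A list of configurations contains the positions
of the zombies at the times `t, t - 1, …, 0` (the present ones first); `pos` is the vertex where the
survivor goes when he has seen this list. Thus `pos [z]` is his start, and later he has to move to a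
neighbour or to stay. -/
structure Strategy (G : SimpleGraph V) (k : ℕ) where
  pos : List (Fin k → V) → V
  legal : ∀ (z z' : Fin k → V) (h : List (Fin k → V)),
    pos (z' :: z :: h) = pos (z :: h) ∨ G.Adj (pos (z :: h)) (pos (z' :: z :: h))

/-- The probability that the survivor survives `T` more rounds, if the present positions of the
zombies are `z`, the earlier ones are `h`, and he plays according to `σ`. -/
noncomputable def survive (G : SimpleGraph V) {k : ℕ} (σ : Strategy G k) :
    ℕ → (Fin k → V) → List (Fin k → V) → ℝ
  | 0, _, _ => 1
  | T + 1, z, h => ∑ z' : Fin k → V, (∏ i, step G (σ.pos (z :: h)) (z i) (z' i)) *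
      if (∃ i, z' i = σ.pos (z :: h)) ∨ ∃ i, z' i = σ.pos (z' :: z :: h) then 0
      else survive G σ T z' (z :: h)

/-- The probability that the survivor who plays according to `σ` is not eaten in the first `T`
rounds. -/
noncomputable def surviveRounds (G : SimpleGraph V) {k : ℕ} (σ : Strategy G k) (T : ℕ) : ℝ :=
  (∑ z : Fin k → V, if ∃ i, z i = σ.pos [z] then 0 else survive G σ T z []) /
    (Fintype.card V : ℝ) ^ k

/-- The probability that the survivor is never eaten, under optimal play. -/
noncomputable def survivalProbability (G : SimpleGraph V) (k : ℕ) : ℝ :=
  ⨆ σ : Strategy G k, ⨅ T : ℕ, surviveRounds G σ T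

/-- The zombie number: the least number of zombies for which the survivor is eaten with probability
at least `1 / 2`. -/
noncomputable def zombieNumber (G : SimpleGraph V) : ℕ :=
  sInf {k | survivalProbability G k ≤ 1 / 2}

/-- The toroidal `n × n` grid `C_n □ C_n`. -/
def torus (n : ℕ) : SimpleGraph (Fin n × Fin n) :=
  SimpleGraph.cycleGraph n □ SimpleGraph.cycleGraph n

end Pool.Agent.W2helper90.ZombieGame
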