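import Pool.Agent.W2helper90.Zombie.Defs

/-!
# The union bound over the paths of the survivor
-/

set_option autoImplicit false

namespace Pool.Agent.W2helper90.ZombieGame

open Finset

variable {V : Type} [Fintype V] [DecidableEq V]

theorem step_nonneg (G : SimpleGraph V) (s x y : V) : 0 ≤ step G s x y := by
  unfold step
  split_ifs <;> positivity

theorem step_sum_le (G : SimpleGraph V) (s x : V) : ∑ y, step G s x y ≤ 1 := by
  unfold step
  rw [Finset.sum_ite_mem, Finset.univ_inter, Finset.sum_const, nsmul_eq_mul]
  rcases Nat.eq_zero_or_pos (closer G s x).card with h | h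
  · rw [h]; norm_num
  · have : (0 : ℝ) < (closer G s x).card := by exact_mod_cast h
    field_simp
    exact le_rfl

/-- The probability that one zombie, now at `x`, does not catch the survivor, who is at `s` and
then visits the vertices in the list. -/
noncomputable def avoid (G : SimpleGraph V) : V → List V → V → ℝ
  | s, [], x => if x = s then 0 else 1
  | s, s' :: π, x => if x = s then 0 else
      ∑ y, step G s x y * (if y = s then 0 else avoid G s' π y)

theorem avoid_nonneg (G : SimpleGraph V) (π : List V) : ∀ s x, 0 ≤ avoid G s π x := by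
  induction π with
  | nil =>
    intro s x
    unfold avoid
    split_ifs <;> norm_num
  | cons s' π ih =>
    intro s x
    unfold avoid
    split_ifs
    · exact le_rfl
    · apply Finset.sum_nonneg
      intro y _
      apply mul_nonneg (step_nonneg _ _ _ _)
      split_ifs
      · exact le_rfl
      · exact ih _ _

theorem avoid_le_one (G : SimpleGraph V) (π : List V) : ∀ s x, avoid G s π x ≤ 1 := by
  induction π with
  | nil =>
    intro s x
    unfold avoid
    split_ifs <;> norm_num
  | cons s' π ih =>
    intro s x
    unfold avoid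
    split_ifs
    · norm_num
    · refine (Finset.sum_le_sum fun y _ => ?_).trans (step_sum_le G s x)
      have h1 := step_nonneg G s x y
      split_ifs
      · rw [mul_zero]; exact h1
      · exact mul_le_of_le_one_right h1 (ih _ _)

/-- closed neighbourhood -/
noncomputable def nb (G : SimpleGraph V) (s : V) : Finset V := by
  classical
  exact univ.filter fun y => y = s ∨ G.Adj s y

/-- sum over all paths of length `T` of the survivor -/
noncomputable def pathSum (G : SimpleGraph V) : ℕ → V → (List V → ℝ) → ℝ
  | 0, _, Φ => Φ []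
  | T + 1, s, Φ => ∑ s' ∈ nb G s, pathSum G T s' fun π => Φ (s' :: π)

theorem pathSum_mono (G : SimpleGraph V) (T : ℕ) : ∀ (s : V) (Φ Ψ : List V → ℝ),
    (∀ π, Φ π ≤ Ψ π) → pathSum G T s Φ ≤ pathSum G T s Ψ := by
  induction T with
  | zero => exact fun s Φ Ψ h => h _
  | succ T ih => exact fun s Φ Ψ h => Finset.sum_le_sum fun s' _ => ih _ _ _ fun π => h _

theorem pathSum_sum (G : SimpleGraph V) {J : Type} (F : Finset J) (T : ℕ) :
    ∀ (s : V) (Φ : J → List V → ℝ),
      pathSum G T s (fun π => ∑ j ∈ F, Φ j π) = ∑ j ∈ F, pathSum G T s (Φ j) := by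
  induction T with
  | zero => exact fun s Φ => rfl
  | succ T ih =>
    intro s Φ
    simp only [pathSum]
    rw [Finset.sum_comm]
    exact Finset.sum_congr rfl fun s' _ => ih s' fun j π => Φ j (s' :: π)

theorem pathSum_mul (G : SimpleGraph V) (c : ℝ) (T : ℕ) : ∀ (s : V) (Φ : List V → ℝ),
    pathSum G T s (fun π => c * Φ π) = c * pathSum G T s Φ := by
  induction T with
  | zero => exact fun s Φ => rfl
  | succ T ih =>
    intro s Φ
    simp only [pathSum]
    rw [Finset.mul_sum]
    exact Finset.sum_congr rfl fun s' _ => ih s' fun π => Φ (s' :: π)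

theorem pathSum_nonneg (G : SimpleGraph V) (T : ℕ) : ∀ (s : V) (Φ : List V → ℝ),
    (∀ π, 0 ≤ Φ π) → 0 ≤ pathSum G T s Φ := by
  induction T with
  | zero => exact fun s Φ h => h _
  | succ T ih => exact fun s Φ h => Finset.sum_nonneg fun s' _ => ih _ _ fun π => h _

/-- legal continuations of a path -/
def IsPath (G : SimpleGraph V) : V → List V → Prop
  | _, [] => True
  | s, s' :: π => (s' = s ∨ G.Adj s s') ∧ IsPath G s' π

theorem pathSum_le (G : SimpleGraph V) {B : ℝ} (hB0 : 0 ≤ B) (hB : ∀ s, ((nb G s).card : ℝ) ≤ B)
    {c : ℝ} (hc : 0 ≤ c)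
    (T : ℕ) : ∀ (s : V) (Φ : List V → ℝ), (∀ π, π.length = T → IsPath G s π → Φ π ≤ c) →
      pathSum G T s Φ ≤ B ^ T * c := by
  induction T with
  | zero =>
    intro s Φ h
    rw [pow_zero, one_mul]
    exact h [] rfl trivial
  | succ T ih =>
    intro s Φ h
    simp only [pathSum]
    calc ∑ s' ∈ nb G s, pathSum G T s' (fun π => Φ (s' :: π)) ≤ ∑ _s' ∈ nb G s, B ^ T * c := by
          apply Finset.sum_le_sum
          intro s' hs'
          apply ih
          intro π hπ hpath
          apply h
          · simp [hπ]
          · refine ⟨?_, hpath⟩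
            simpa [nb] using hs'
      _ = (nb G s).card * (B ^ T * c) := by rw [Finset.sum_const, nsmul_eq_mul]
      _ ≤ B * (B ^ T * c) := mul_le_mul_of_nonneg_right (hB s) (by positivity)
      _ = B ^ (T + 1) * c := by ring

theorem survive_le (G : SimpleGraph V) {k : ℕ} (σ : Strategy G k) (T : ℕ) :
    ∀ (z : Fin k → V) (h : List (Fin k → V)),
      (if ∃ i, z i = σ.pos (z :: h) then 0 else survive G σ T z h) ≤
        pathSum G T (σ.pos (z :: h)) fun π => ∏ i, avoid G (σ.pos (z :: h)) π (z i) := by
  induction T with
  | zero =>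
    intro z h
    simp only [pathSum, survive, avoid]
    split_ifs with hz
    · apply Finset.prod_nonneg
      intro i _
      split_ifs <;> norm_num
    · push Not at hz
      rw [Finset.prod_congr rfl fun i _ => if_neg (hz i)]
      simp
  | succ T ih =>
    intro z h
    set s := σ.pos (z :: h) with hs
    split_ifs with hz
    · exact pathSum_nonneg _ _ _ _ fun π => Finset.prod_nonneg fun i _ => avoid_nonneg _ _ _ _
    push Not at hz
    simp only [survive, ← hs]
    have h1 : ∀ z' : Fin k → V, (∏ i, step G s (z i) (z' i)) *
        (if (∃ i, z' i = s) ∨ ∃ i, z' i = σ.pos (z' :: z :: h) then 0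
          else survive G σ T z' (z :: h)) ≤
        ∑ s' ∈ nb G s, pathSum G T s' fun π =>
          ∏ i, (step G s (z i) (z' i) * if z' i = s then 0 else avoid G s' π (z' i)) := by
      intro z'
      have hst : 0 ≤ ∏ i, step G s (z i) (z' i) := Finset.prod_nonneg fun i _ => step_nonneg _ _ _ _
      have hnn : ∀ s' ∈ nb G s, 0 ≤ pathSum G T s' fun π =>
          ∏ i, (step G s (z i) (z' i) * if z' i = s then 0 else avoid G s' π (z' i)) := by
        intro s' _
        apply pathSum_nonneg
        intro π
        apply Finset.prod_nonneg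
        intro i _
        apply mul_nonneg (step_nonneg _ _ _ _)
        split_ifs
        · exact le_rfl
        · exact avoid_nonneg _ _ _ _
      by_cases hA : ∃ i, z' i = s
      · rw [if_pos (Or.inl hA), mul_zero]
        exact Finset.sum_nonneg hnn
      · have hmem : σ.pos (z' :: z :: h) ∈ nb G s := by
          have := σ.legal z z' h
          simpa [nb, hs] using this
        refine le_trans ?_ (Finset.single_le_sum hnn hmem)
        have h2 := ih z' (z :: h)
        push Not at hA
        have h3 : ∀ π, ∏ i, (step G s (z i) (z' i) *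
            if z' i = s then 0 else avoid G (σ.pos (z' :: z :: h)) π (z' i)) =
            (∏ i, step G s (z i) (z' i)) * ∏ i, avoid G (σ.pos (z' :: z :: h)) π (z' i) := by
          intro π
          rw [Finset.prod_mul_distrib]
          congr 1
          exact Finset.prod_congr rfl fun i _ => if_neg (hA i)
        simp only [h3]
        rw [pathSum_mul]
        apply mul_le_mul_of_nonneg_left _ hst
        refine le_trans (le_of_eq ?_) h2
        have hA' : ¬ ∃ i, z' i = s := by push Not; exact hA
        simp only [hA', false_or]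
    refine (Finset.sum_le_sum fun z' _ => h1 z').trans (le_of_eq ?_)
    rw [Finset.sum_comm]
    simp only [pathSum]
    apply Finset.sum_congr rfl
    intro s' _
    rw [← pathSum_sum]
    congr 1
    funext π
    simp only [avoid]
    rw [Finset.prod_congr rfl fun i _ => if_neg (hz i)]
    rw [Finset.prod_univ_sum]
    rw [Fintype.piFinset_univ]

theorem surviveRounds_le (G : SimpleGraph V) {k : ℕ} (σ : Strategy G k) (T : ℕ) :
    surviveRounds G σ T ≤
      ∑ s, pathSum G T s fun π => ((∑ x, avoid G s π x) / (Fintype.card V : ℝ)) ^ k := by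
  unfold surviveRounds
  have h1 : ∀ z : Fin k → V, (if ∃ i, z i = σ.pos [z] then 0 else survive G σ T z []) ≤
      ∑ s, pathSum G T s fun π => ∏ i, avoid G s π (z i) := by
    intro z
    refine (survive_le G σ T z []).trans ?_
    exact Finset.single_le_sum (f := fun s => pathSum G T s fun π => ∏ i, avoid G s π (z i))
      (fun s _ => pathSum_nonneg _ _ _ _ fun π => Finset.prod_nonneg fun i _ => avoid_nonneg _ _ _ _)
      (Finset.mem_univ (σ.pos [z]))
  have h2 : ∑ z : Fin k → V, (if ∃ i, z i = σ.pos [z] then 0 else survive G σ T z []) ≤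
      ∑ s, pathSum G T s fun π => (∑ x, avoid G s π x) ^ k := by
    refine (Finset.sum_le_sum fun z _ => h1 z).trans (le_of_eq ?_)
    rw [Finset.sum_comm]
    apply Finset.sum_congr rfl
    intro s _
    rw [← pathSum_sum]
    congr 1
    funext π
    rw [Fintype.sum_pow]
  calc (∑ z : Fin k → V, if ∃ i, z i = σ.pos [z] then 0 else survive G σ T z []) /
        (Fintype.card V : ℝ) ^ k
      ≤ (∑ s, pathSum G T s fun π => (∑ x, avoid G s π x) ^ k) / (Fintype.card V : ℝ) ^ k :=
        div_le_div_of_nonneg_right h2 (by positivity)
    _ = _ := by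
        rw [Finset.sum_div]
        apply Finset.sum_congr rfl
        intro s _
        rw [div_eq_inv_mul, ← pathSum_mul]
        congr 1
        funext π
        rw [div_pow, div_eq_inv_mul]

end Pool.Agent.W2helper90.ZombieGame
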