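import Mathlib

/-!
# One zombie chasing a survivor with a fixed path, in the grid `ℤ × ℤ`

Everything is written in coordinates relative to the survivor.  The survivor's path is a list of
moves `(dx, dy)`.  `u ms a b` is the probability that a zombie at relative position `(a, b)` catches
the survivor within `ms.length` rounds (zombie's move, then survivor's move).
-/

set_option autoImplicit false

namespace Pool.Agent.W2helper90.Zombie

/-- one step towards `0` -/
def tow (a : ℤ) : ℤ := a - a.sign

/-- average of `w` over the possible positions of a zombie at `(a, b) ≠ 0` after its move -/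
noncomputable def K (w : ℤ → ℤ → ℝ) (a b : ℤ) : ℝ :=
  if a = 0 then (if b = 0 then 0 else w 0 (tow b))
  else if b = 0 then w (tow a) 0
  else (1 / 2) * w (tow a) b + (1 / 2) * w a (tow b)

/-- catching probability -/
noncomputable def u : List (ℤ × ℤ) → ℤ → ℤ → ℝ
  | [], a, b => if a = 0 ∧ b = 0 then 1 else 0
  | m :: ms, a, b => if a = 0 ∧ b = 0 then 1 else
      K (fun x y => if x = 0 ∧ y = 0 then 1 else u ms (x - m.1) (y - m.2)) a b

theorem u_zero (ms : List (ℤ × ℤ)) : u ms 0 0 = 1 := by
  cases ms <;> simp [u]

theorem K_nonneg {w : ℤ → ℤ → ℝ} (hw : ∀ a b, 0 ≤ w a b) (a b : ℤ) : 0 ≤ K w a b := by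
  unfold K
  split_ifs <;> first | exact le_rfl | exact hw _ _ | skip
  have := hw (tow a) b
  have := hw a (tow b)
  linarith

theorem K_mono {w w' : ℤ → ℤ → ℝ} (hw : ∀ a b, w a b ≤ w' a b) (a b : ℤ) : K w a b ≤ K w' a b := by
  unfold K
  split_ifs <;> first | exact le_rfl | exact hw _ _ | skip
  have := hw (tow a) b
  have := hw a (tow b)
  linarith

theorem u_nonneg (ms : List (ℤ × ℤ)) : ∀ a b, 0 ≤ u ms a b := by
  induction ms with
  | nil =>
    intro a b
    unfold u
    split_ifs <;> norm_num
  | cons m ms ih =>
    intro a b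
    unfold u
    split_ifs
    · norm_num
    · apply K_nonneg
      intro x y
      split_ifs
      · norm_num
      · exact ih _ _

theorem u_le_one (ms : List (ℤ × ℤ)) : ∀ a b, u ms a b ≤ 1 := by
  induction ms with
  | nil =>
    intro a b
    unfold u
    split_ifs <;> norm_num
  | cons m ms ih =>
    intro a b
    unfold u
    split_ifs with h
    · norm_num
    · refine (K_mono (w' := fun _ _ => 1) ?_ a b).trans ?_
      · intro x y
        split_ifs
        · norm_num
        · exact ih _ _
      · unfold K
        split_ifs <;> norm_num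

/-! ### Symmetries -/

def mX (ms : List (ℤ × ℤ)) : List (ℤ × ℤ) := ms.map fun m => (-m.1, m.2)
def mY (ms : List (ℤ × ℤ)) : List (ℤ × ℤ) := ms.map fun m => (m.1, -m.2)
def sw (ms : List (ℤ × ℤ)) : List (ℤ × ℤ) := ms.map fun m => (m.2, m.1)

theorem tow_neg (a : ℤ) : tow (-a) = - tow a := by
  unfold tow
  rw [Int.sign_neg]
  ring

theorem u_mX (ms : List (ℤ × ℤ)) : ∀ a b, u (mX ms) (-a) b = u ms a b := by
  induction ms with
  | nil =>
    intro a b
    simp [u, mX]
  | cons m ms ih =>
    intro a b
    have hrec : ∀ x y, (if -x = 0 ∧ y = 0 then (1 : ℝ) else u (mX ms) (-x - -m.1) (y - m.2)) =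
        if x = 0 ∧ y = 0 then 1 else u ms (x - m.1) (y - m.2) := by
      intro x y
      have h1 := ih (x - m.1) (y - m.2)
      rw [show -(x - m.1) = -x - -m.1 by ring] at h1
      simp only [neg_eq_zero, h1]
    show (if -a = 0 ∧ b = 0 then (1 : ℝ) else
      K (fun x y => if x = 0 ∧ y = 0 then 1 else u (mX ms) (x - -m.1) (y - m.2)) (-a) b) =
      (if a = 0 ∧ b = 0 then (1 : ℝ) else
      K (fun x y => if x = 0 ∧ y = 0 then 1 else u ms (x - m.1) (y - m.2)) a b)
    unfold K
    simp only [neg_eq_zero, tow_neg]
    by_cases ha : a = 0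
    · by_cases hb : b = 0
      · simp [ha, hb]
      · simp only [ha, if_true, hb, if_false, and_false]
        have := hrec 0 (tow b)
        simpa using this
    · by_cases hb : b = 0
      · simp only [ha, if_false, hb, if_true, false_and]
        have := hrec (tow a) 0
        simpa using this
      · simp only [ha, hb, if_false, false_and]
        have h1 := hrec (tow a) b
        simp only [neg_eq_zero, hb, and_false, if_false] at h1
        have h2 := hrec a (tow b)
        simp only [neg_eq_zero, ha, false_and, if_false] at h2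
        simp only [and_false, if_false]
        rw [h1, h2]

theorem u_sw (ms : List (ℤ × ℤ)) : ∀ a b, u (sw ms) b a = u ms a b := by
  induction ms with
  | nil =>
    intro a b
    simp [u, sw, and_comm]
  | cons m ms ih =>
    intro a b
    have hrec : ∀ x y, (if y = 0 ∧ x = 0 then (1 : ℝ) else u (sw ms) (y - m.2) (x - m.1)) =
        if x = 0 ∧ y = 0 then 1 else u ms (x - m.1) (y - m.2) := by
      intro x y
      simp only [and_comm, ih]
    show (if b = 0 ∧ a = 0 then (1 : ℝ) else
      K (fun x y => if x = 0 ∧ y = 0 then 1 else u (sw ms) (x - m.2) (y - m.1)) b a) =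
      (if a = 0 ∧ b = 0 then (1 : ℝ) else
      K (fun x y => if x = 0 ∧ y = 0 then 1 else u ms (x - m.1) (y - m.2)) a b)
    unfold K
    simp only [hrec]
    by_cases ha : a = 0
    · by_cases hb : b = 0
      · simp [ha, hb]
      · simp only [ha, hb, if_true, if_false, and_true, and_false, true_and, ih]
    · by_cases hb : b = 0
      · simp only [ha, hb, if_true, if_false, and_false, and_true, true_and, ih]
      · simp only [ha, hb, if_false, and_false]
        ring

theorem u_mY (ms : List (ℤ × ℤ)) (a b : ℤ) : u (mY ms) a (-b) = u ms a b := by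
  have h : mY ms = sw (mX (sw ms)) := by
    unfold mY sw mX
    simp [List.map_map, Function.comp_def]
  rw [h, u_sw, u_mX, u_sw]

end Pool.Agent.W2helper90.Zombie
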