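import Pool.Agent.W2helper90.Zombie.Row

/-!
# The potential function
-/

set_option autoImplicit false

namespace Pool.Agent.W2helper90.Zombie

open Finset

/-- the five moves of the survivor -/
def IsMove (m : ℤ × ℤ) : Prop :=
  m = (1, 0) ∨ m = (-1, 0) ∨ m = (0, 1) ∨ m = (0, -1) ∨ m = (0, 0)

theorem IsMove.bound {m : ℤ × ℤ} (h : IsMove m) : |m.1| + |m.2| ≤ 1 := by
  rcases h with h | h | h | h | h <;> subst h <;> norm_num

noncomputable def vm (m : ℤ × ℤ) : ℝ := ((|m.2| : ℤ) : ℝ)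

/-- `Psi ms a b` is the expectation of `max (a - W + v) (b + W - v)`, where `W` is the number of
successes in `ms.length` fair coin tosses and `v` the number of vertical moves in `ms`. -/
noncomputable def Psi : List (ℤ × ℤ) → ℝ → ℝ → ℝ
  | [], a, b => max a b
  | m :: ms, a, b => (1 / 2) * Psi ms (a - (1 - vm m)) (b + (1 - vm m)) +
      (1 / 2) * Psi ms (a + vm m) (b - vm m)

theorem Psi_le (ms : List (ℤ × ℤ)) : ∀ {a b a' b' δ : ℝ}, a ≤ a' + δ → b ≤ b' + δ →
    Psi ms a b ≤ Psi ms a' b' + δ := by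
  induction ms with
  | nil =>
    intro a b a' b' δ h1 h2
    simp only [Psi]
    refine max_le (h1.trans ?_) (h2.trans ?_)
    · linarith [le_max_left a' b']
    · linarith [le_max_right a' b']
  | cons m ms ih =>
    intro a b a' b' δ h1 h2
    simp only [Psi]
    have e1 := ih (a := a - (1 - vm m)) (b := b + (1 - vm m)) (a' := a' - (1 - vm m))
      (b' := b' + (1 - vm m)) (δ := δ) (by linarith) (by linarith)
    have e2 := ih (a := a + vm m) (b := b - vm m) (a' := a' + vm m)
      (b' := b' - vm m) (δ := δ) (by linarith) (by linarith)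
    linarith

def e2 (D : ℤ) (gL gR : ℕ) : ℤ := max ((gL : ℤ) - max D 0) 0 + max ((gR : ℤ) - max (-D) 0) 0

def Phi (D D' : ℤ) (gL gR gU gD : ℕ) : ℤ := 2 * |D| + 2 * |D'| + e2 D' gL gR + e2 D gD gU

theorem tow_abs (D : ℤ) : |tow D| = |D| - (if D = 0 then 0 else 1) := by
  rcases lt_trichotomy D 0 with h | h | h
  · rw [tow_of_neg h, if_neg h.ne, abs_of_neg h, abs_of_nonpos (by omega)]
    ring
  · subst h
    simp [tow]
  · rw [tow_pos h, if_neg h.ne', abs_of_pos h, abs_of_nonneg (by omega)]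

theorem e2_tow (D : ℤ) (gL gR : ℕ) :
    e2 (tow D) (gL - 1) (gR - 1) ≤ e2 D gL gR - (if gL = 0 ∨ gR = 0 then 0 else 1) := by
  unfold e2
  rcases lt_trichotomy D 0 with h | h | h
  · rw [tow_of_neg h]
    split_ifs <;> omega
  · subst h
    simp only [tow, Int.sign_zero, sub_zero]
    split_ifs <;> omega
  · rw [tow_pos h]
    split_ifs <;> omega

theorem e2_pred (D : ℤ) (gL gR : ℕ) :
    e2 D (gL - 1) (gR - 1) ≤ e2 D gL gR - (if gL = 0 ∨ gR = 0 then 0 else 1) := by
  unfold e2
  rcases lt_trichotomy D 0 with h | h | h <;> split_ifs <;> omega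

def dec (D d : ℤ) : ℤ := if |D + d| < |D| then 1 else 0

theorem abs_add_move {D d : ℤ} (hd : |d| ≤ 1) : |D + d| = |D| + |d| - 2 * dec D d := by
  have h1 : d = -1 ∨ d = 0 ∨ d = 1 := by
    have := abs_le.1 hd
    omega
  unfold dec
  rcases lt_trichotomy D 0 with h | h | h
  · rcases h1 with rfl | rfl | rfl
    · rw [abs_of_neg h, abs_of_neg (show D + -1 < 0 by omega)]
      norm_num
      ring
    · simp
    · rw [abs_of_neg h, abs_of_nonpos (show D + 1 ≤ 0 by omega), if_pos (by omega)]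
      norm_num
      ring
  · subst h
    have := abs_nonneg d
    rw [abs_zero, zero_add, if_neg (by omega)]
    ring
  · rcases h1 with rfl | rfl | rfl
    · rw [abs_of_pos h, abs_of_nonneg (show 0 ≤ D + -1 by omega), if_pos (by omega)]
      norm_num
      ring
    · simp
    · rw [abs_of_pos h, abs_of_pos (show 0 < D + 1 by omega), if_neg (by omega)]
      norm_num

theorem e2_move {D d : ℤ} (hd : |d| ≤ 1) (gL gR : ℕ) :
    e2 (D + d) (adj (-d) gL) (adj d gR) ≤ e2 D gL gR + dec D d := by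
  have h1 : d = -1 ∨ d = 0 ∨ d = 1 := by
    have := abs_le.1 hd
    omega
  unfold dec e2 adj
  rcases lt_trichotomy D 0 with h | h | h
  · rcases h1 with rfl | rfl | rfl
    · rw [abs_of_neg h, abs_of_neg (show D + -1 < 0 by omega), if_neg (by omega)]
      omega
    · simp
    · rw [abs_of_neg h, abs_of_nonpos (show D + 1 ≤ 0 by omega), if_pos (by omega)]
      omega
  · subst h
    rcases h1 with rfl | rfl | rfl <;> simp
  · rcases h1 with rfl | rfl | rfl
    · rw [abs_of_pos h, abs_of_nonneg (show 0 ≤ D + -1 by omega), if_pos (by omega)]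
      omega
    · simp
    · rw [abs_of_pos h, abs_of_pos (show 0 < D + 1 by omega), if_neg (by omega)]
      omega

/-- The effect of a move of the survivor. -/
theorem move_step (ms : List (ℤ × ℤ)) {m : ℤ × ℤ} (hm : IsMove m) (D D' : ℤ) (gL gR gU gD : ℕ)
    (a b : ℝ) (ha : a ≤ |D|) (hb : b ≤ |D'|) :
    (3 / 2) * Psi ms (a + vm m) (b + (1 - vm m)) - 2 - Phi D D' gL gR gU gD ≤
      (3 / 2) * Psi ms |((D + m.2 : ℤ) : ℝ)| |((D' + m.1 : ℤ) : ℝ)| -
        Phi (D + m.2) (D' + m.1) (adj (-m.1) gL) (adj m.1 gR) (adj m.2 gU) (adj (-m.2) gD) := by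
  have hb1 := hm.bound
  have hx : |m.1| ≤ 1 := by
    have := abs_nonneg m.2
    omega
  have hy : |m.2| ≤ 1 := by
    have := abs_nonneg m.1
    omega
  have h1 := abs_add_move (D := D') hx
  have h2 := abs_add_move (D := D) hy
  have h3 := e2_move (D := D') hx gL gR
  have h4 := e2_move (D := D) hy gD gU
  have h5 : 0 ≤ dec D' m.1 := by unfold dec; split_ifs <;> norm_num
  have h6 : 0 ≤ dec D m.2 := by unfold dec; split_ifs <;> norm_num
  set st : ℤ := 1 - |m.1| - |m.2| with hst
  have hst0 : 0 ≤ st := by omega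
  have hPhi : Phi (D + m.2) (D' + m.1) (adj (-m.1) gL) (adj m.1 gR) (adj m.2 gU) (adj (-m.2) gD) ≤
      Phi D D' gL gR gU gD + 2 * (1 - st) - 3 * (dec D' m.1 + dec D m.2) := by
    unfold Phi
    rw [h1, h2]
    omega
  have hPsi := Psi_le ms (a := a + vm m) (b := b + (1 - vm m))
    (a' := |((D + m.2 : ℤ) : ℝ)|) (b' := |((D' + m.1 : ℤ) : ℝ)|)
    (δ := ((2 * (dec D' m.1 + dec D m.2) + st : ℤ) : ℝ)) (by
      rw [← Int.cast_abs, h2]
      unfold vm
      have h5' : (0 : ℝ) ≤ dec D' m.1 := by exact_mod_cast h5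
      have hst0' : (0 : ℝ) ≤ st := by exact_mod_cast hst0
      push_cast
      push_cast at ha
      linarith) (by
      rw [← Int.cast_abs, h1]
      unfold vm
      have h6' : (0 : ℝ) ≤ dec D m.2 := by exact_mod_cast h6
      rw [hst]
      push_cast
      push_cast at hb
      linarith)
  have hPhi' : (Phi (D + m.2) (D' + m.1) (adj (-m.1) gL) (adj m.1 gR) (adj m.2 gU)
      (adj (-m.2) gD) : ℝ) ≤
      Phi D D' gL gR gU gD + 2 * (1 - st) - 3 * (dec D' m.1 + dec D m.2) := by
    exact_mod_cast hPhi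
  push_cast at hPsi hPhi' ⊢
  have hst0' : (0 : ℝ) ≤ st := by exact_mod_cast hst0
  linarith

/-- number of zombies caught in a turn in which the survivor is aligned with them -/
def inc (D : ℤ) (g g' : ℕ) : ℤ :=
  if D = 0 then (if g = 0 then 1 else 0) + (if g' = 0 then 1 else 0) else 0

theorem turn (D D' : ℤ) (gL gR gU gD : ℕ) :
    4 + Phi (tow D) D' (if D = 0 then gL - 1 else gL) (if D = 0 then gR - 1 else gR) (gU - 1) (gD - 1) +
      Phi D (tow D') (gL - 1) (gR - 1) (if D' = 0 then gU - 1 else gU)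
        (if D' = 0 then gD - 1 else gD) ≤
      2 * Phi D D' gL gR gU gD + 2 * inc D gR gL + 2 * inc D' gU gD := by
  unfold Phi
  rw [tow_abs, tow_abs]
  have h1 := e2_tow D' gL gR
  have h2 := e2_pred D' gL gR
  have h3 := e2_tow D gD gU
  have h4 := e2_pred D gD gU
  unfold inc
  by_cases hD : D = 0
  · by_cases hD' : D' = 0
    · simp only [hD, hD', if_true] at h1 h2 h3 h4 ⊢
      split_ifs at h1 h2 h3 h4 ⊢ <;> omega
    · simp only [hD, hD', if_true, if_false] at h1 h2 h3 h4 ⊢
      split_ifs at h1 h2 h3 h4 ⊢ <;> omega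
  · by_cases hD' : D' = 0
    · simp only [hD, hD', if_true, if_false] at h1 h2 h3 h4 ⊢
      split_ifs at h1 h2 h3 h4 ⊢ <;> omega
    · simp only [hD, hD', if_false] at h1 h2 h3 h4 ⊢
      split_ifs at h1 h2 h3 h4 ⊢ <;> omega

theorem sV_cons (m : ℤ × ℤ) (ms : List (ℤ × ℤ)) (D : ℤ) (g : ℕ) :
    sV (m :: ms) D g = (if D = 0 then (if g = 0 then 1 else 0) else 0) +
      (1 / 2) * sV ms (tow D + m.2) (adj m.1 (if D = 0 then g - 1 else g)) +
      (1 / 2) * sV ms (D + m.2) (adj m.1 (g - 1)) := by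
  by_cases hD : D = 0
  · subst hD
    simp only [sV, if_true, tow, Int.sign_zero, sub_zero, zero_add]
    ring
  · simp only [sV, hD, if_false, zero_add]

theorem joint (ms : List (ℤ × ℤ)) (hms : ∀ m ∈ ms, IsMove m) :
    ∀ (D D' : ℤ) (gL gR gU gD : ℕ),
      (3 / 2) * Psi ms |(D : ℝ)| |(D' : ℝ)| - Phi D D' gL gR gU gD ≤
        sV ms D gR + sV (mX ms) D gL + sV (sw ms) D' gU + sV (sw (mY ms)) D' gD := by
  induction ms with
  | nil =>
    intro D D' gL gR gU gD
    simp only [mX, mY, sw, List.map_nil, sV, Psi]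
    have h1 : 0 ≤ e2 D' gL gR := by unfold e2; positivity
    have h2 : 0 ≤ e2 D gD gU := by unfold e2; positivity
    have h3 : (2 * |(D : ℝ)| + 2 * |(D' : ℝ)|) ≤ (Phi D D' gL gR gU gD : ℝ) := by
      have : 2 * |D| + 2 * |D'| ≤ Phi D D' gL gR gU gD := by unfold Phi; omega
      exact_mod_cast this
    have h4 : max |(D : ℝ)| |(D' : ℝ)| ≤ |(D : ℝ)| + |(D' : ℝ)| :=
      max_le (by linarith [abs_nonneg (D' : ℝ)]) (by linarith [abs_nonneg (D : ℝ)])
    linarith [abs_nonneg (D' : ℝ), abs_nonneg (D : ℝ)]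
  | cons m ms ih =>
    intro D D' gL gR gU gD
    have ih := ih fun m' hm' => hms m' (List.mem_cons_of_mem _ hm')
    have hm := hms m List.mem_cons_self
    have hX : mX (m :: ms) = (-m.1, m.2) :: mX ms := rfl
    have hS : sw (m :: ms) = (m.2, m.1) :: sw ms := rfl
    have hY : sw (mY (m :: ms)) = (-m.2, m.1) :: sw (mY ms) := rfl
    rw [hX, hS, hY, sV_cons, sV_cons, sV_cons, sV_cons]
    simp only
    have iV := ih (tow D + m.2) (D' + m.1) (adj (-m.1) (if D = 0 then gL - 1 else gL))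
      (adj m.1 (if D = 0 then gR - 1 else gR)) (adj m.2 (gU - 1)) (adj (-m.2) (gD - 1))
    have iH := ih (D + m.2) (tow D' + m.1) (adj (-m.1) (gL - 1))
      (adj m.1 (gR - 1)) (adj m.2 (if D' = 0 then gU - 1 else gU))
      (adj (-m.2) (if D' = 0 then gD - 1 else gD))
    have hDr : (|D| : ℝ) - 1 ≤ ((|tow D| : ℤ) : ℝ) := by
      have : |D| - 1 ≤ |tow D| := by
        rw [tow_abs]
        split_ifs <;> omega
      exact_mod_cast this
    have hDr' : (|D'| : ℝ) - 1 ≤ ((|tow D'| : ℤ) : ℝ) := by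
      have : |D'| - 1 ≤ |tow D'| := by
        rw [tow_abs]
        split_ifs <;> omega
      exact_mod_cast this
    have mV := move_step ms hm (tow D) D' (if D = 0 then gL - 1 else gL)
      (if D = 0 then gR - 1 else gR) (gU - 1) (gD - 1) (|(D : ℝ)| - 1) |(D' : ℝ)|
      (by push_cast at hDr ⊢; exact hDr) (by push_cast; exact le_rfl)
    have mH := move_step ms hm D (tow D') (gL - 1) (gR - 1) (if D' = 0 then gU - 1 else gU)
      (if D' = 0 then gD - 1 else gD) |(D : ℝ)| (|(D' : ℝ)| - 1)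
      (by push_cast; exact le_rfl) (by push_cast at hDr' ⊢; exact hDr')
    have ht := turn D D' gL gR gU gD
    have ht' : (4 : ℝ) + Phi (tow D) D' (if D = 0 then gL - 1 else gL)
        (if D = 0 then gR - 1 else gR) (gU - 1) (gD - 1) +
      Phi D (tow D') (gL - 1) (gR - 1) (if D' = 0 then gU - 1 else gU)
        (if D' = 0 then gD - 1 else gD) ≤
      2 * Phi D D' gL gR gU gD + 2 * inc D gR gL + 2 * inc D' gU gD := by exact_mod_cast ht
    have hi1 : (inc D gR gL : ℝ) = (if D = 0 then (if gR = 0 then 1 else 0) else 0) +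
        (if D = 0 then (if gL = 0 then 1 else 0) else 0) := by
      unfold inc
      push_cast
      split_ifs <;> norm_num
    have hi2 : (inc D' gU gD : ℝ) = (if D' = 0 then (if gU = 0 then 1 else 0) else 0) +
        (if D' = 0 then (if gD = 0 then 1 else 0) else 0) := by
      unfold inc
      push_cast
      split_ifs <;> norm_num
    have e1 : |(D : ℝ)| - 1 + vm m = |(D : ℝ)| - (1 - vm m) := by ring
    have e2' : |(D' : ℝ)| - 1 + (1 - vm m) = |(D' : ℝ)| - vm m := by ring
    rw [e1] at mV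
    rw [e2'] at mH
    simp only [Psi]
    rw [hi1, hi2] at ht'
    linarith

end Pool.Agent.W2helper90.Zombie
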