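import Pool.Agent.W2helper90.Zombie.Plane

/-!
# The zombies on one side of the survivor's row

`sV ms D g` is a lower bound for the expected number of zombies which catch the survivor, if they
start at the relative positions `(g + 1, -D), (g + 2, -D), …` and use the same coins.
-/

set_option autoImplicit false

namespace Pool.Agent.W2helper90.Zombie

open Finset

/-- the gap after a move of the survivor -/
def adj (dx : ℤ) (g : ℕ) : ℕ := ((g : ℤ) - dx).toNat

noncomputable def sV : List (ℤ × ℤ) → ℤ → ℕ → ℝ
  | [], _, _ => 0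
  | m :: ms, D, g =>
      if D = 0 then (if g = 0 then 1 else 0) + sV ms m.2 (adj m.1 (g - 1))
      else (1 / 2) * sV ms (tow D + m.2) (adj m.1 g) + (1 / 2) * sV ms (D + m.2) (adj m.1 (g - 1))

theorem sum_shift (f : ℤ → ℝ) (c e d : ℤ) :
    ∑ x ∈ Ico c e, f (x - d) = ∑ x ∈ Ico (c - d) (e - d), f x := by
  have := Finset.sum_Ico_add' f c e (-d)
  simpa [sub_eq_add_neg] using this

theorem sum_sub {f : ℤ → ℝ} (hf : ∀ x, 0 ≤ f x) {c e c' e' : ℤ} (h1 : c ≤ c') (h2 : e' ≤ e) :
    ∑ x ∈ Ico c' e', f x ≤ ∑ x ∈ Ico c e, f x :=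
  Finset.sum_le_sum_of_subset_of_nonneg (Finset.Ico_subset_Ico h1 h2) fun x _ _ => hf x

theorem tow_pos {a : ℤ} (h : 0 < a) : tow a = a - 1 := by
  unfold tow
  rw [Int.sign_eq_one_of_pos h]

theorem tow_of_neg {a : ℤ} (h : a < 0) : tow a = a + 1 := by
  unfold tow
  rw [Int.sign_eq_neg_one_of_neg h]
  ring

theorem sV_le (ms : List (ℤ × ℤ)) (hms : ∀ m ∈ ms, |m.1| ≤ 1) :
    ∀ (D : ℤ) (g : ℕ) (e : ℤ), (g : ℤ) + 1 + 2 * ms.length ≤ e →
      sV ms D g ≤ ∑ a ∈ Ico ((g : ℤ) + 1) e, u ms a (-D) := by
  induction ms with
  | nil =>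
    intro D g e _
    exact Finset.sum_nonneg fun a _ => u_nonneg _ _ _
  | cons m ms ih =>
    intro D g e he
    have ih := ih fun m' hm' => hms m' (List.mem_cons_of_mem _ hm')
    have hm1 : |m.1| ≤ 1 := hms m List.mem_cons_self
    obtain ⟨hd1, hd2⟩ := abs_le.1 hm1
    rw [List.length_cons] at he
    push_cast at he
    set dx := m.1 with hdx
    set dy := m.2 with hdy
    by_cases hD : D = 0
    · subst hD
      have hu : ∀ a ∈ Ico ((g : ℤ) + 1) e, u (m :: ms) a (-0) =
          (fun x : ℤ => if x = 0 then (1 : ℝ) else u ms (x - dx) (-dy)) (a - 1) := by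
        intro a ha
        rw [Finset.mem_Ico] at ha
        have ha0 : a ≠ 0 := by omega
        simp only [u, neg_zero, ha0, false_and, if_false, K, if_true]
        rw [tow_pos (by omega)]
        simp only [and_true, zero_sub, ← hdx, ← hdy]
      rw [Finset.sum_congr rfl hu,
        sum_shift (fun x : ℤ => if x = 0 then (1 : ℝ) else u ms (x - dx) (-dy))]
      simp only [sV, if_true, ← hdx, ← hdy]
      by_cases hg : g = 0
      · subst hg
        simp only [Nat.cast_zero, if_true, zero_add, sub_self, Nat.zero_sub]
        have hlt : (0 : ℤ) < e - 1 := by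
          push_cast at he; omega
        have hins : Ico (0 : ℤ) (e - 1) = insert 0 (Ico (1 : ℤ) (e - 1)) := by
          ext x
          simp only [Finset.mem_Ico, Finset.mem_insert]
          omega
        rw [hins, Finset.sum_insert (by simp)]
        simp only [if_true]
        have h2 : ∀ x ∈ Ico (1 : ℤ) (e - 1), (if x = 0 then (1 : ℝ) else u ms (x - dx) (-dy)) =
            (fun y => u ms y (-dy)) (x - dx) := by
          intro x hx
          rw [Finset.mem_Ico] at hx
          rw [if_neg (by omega)]
        rw [Finset.sum_congr rfl h2, sum_shift (fun y => u ms y (-dy))]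
        have h3 := ih dy (adj dx 0) (e - 1 - dx) (by
          unfold adj
          push_cast at he ⊢
          rw [Int.toNat_eq_max]
          omega)
        have h4 := sum_sub (f := fun y => u ms y (-dy)) (fun x => u_nonneg _ _ _)
          (c := 1 - dx) (e := e - 1 - dx) (c' := (adj dx 0 : ℤ) + 1) (e' := e - 1 - dx) (by
            unfold adj
            omega) le_rfl
        linarith
      · simp only [hg, if_false, zero_add]
        have h2 : ∀ x ∈ Ico ((g : ℤ) + 1 - 1) (e - 1),
            (if x = 0 then (1 : ℝ) else u ms (x - dx) (-dy)) =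
            (fun y => u ms y (-dy)) (x - dx) := by
          intro x hx
          rw [Finset.mem_Ico] at hx
          rw [if_neg (by omega)]
        rw [Finset.sum_congr rfl h2, sum_shift (fun y => u ms y (-dy))]
        have h3 := ih dy (adj dx (g - 1)) (e - 1 - dx) (by
          unfold adj
          omega)
        refine h3.trans (sum_sub (f := fun y => u ms y (-dy)) (fun x => u_nonneg _ _ _) ?_ le_rfl)
        unfold adj
        omega
    · have hD' : -D ≠ 0 := by omega
      have hu : ∀ a ∈ Ico ((g : ℤ) + 1) e, u (m :: ms) a (-D) =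
          (1 / 2) * (fun x : ℤ => (fun y => u ms y (-(D + dy))) (x - dx)) (a - 1) +
          (1 / 2) * (fun y => u ms y (-(tow D + dy))) (a - dx) := by
        intro a ha
        rw [Finset.mem_Ico] at ha
        have ha0 : a ≠ 0 := by omega
        simp only [u, ha0, false_and, if_false, K, hD', and_false]
        rw [tow_pos (by omega), tow_neg, show -(D + dy) = -D - m.2 by rw [hdy]; ring,
          show -(tow D + dy) = -tow D - m.2 by rw [hdy]; ring]
      rw [Finset.sum_congr rfl hu, Finset.sum_add_distrib, ← Finset.mul_sum, ← Finset.mul_sum,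
        sum_shift (fun x : ℤ => (fun y => u ms y (-(D + dy))) (x - dx)),
        sum_shift (fun y => u ms y (-(D + dy))), sum_shift (fun y => u ms y (-(tow D + dy)))]
      simp only [sV, hD, if_false, ← hdx, ← hdy]
      have h1 := ih (tow D + dy) (adj dx g) (e - dx) (by
          unfold adj
          omega)
      have h1' := sum_sub (f := fun y => u ms y (-(tow D + dy))) (fun x => u_nonneg _ _ _)
          (c := (g : ℤ) + 1 - dx) (e := e - dx) (c' := (adj dx g : ℤ) + 1) (e' := e - dx) (by
            unfold adj
            omega) le_rfl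
      have h2 := ih (D + dy) (adj dx (g - 1)) (e - 1 - dx) (by
          unfold adj
          omega)
      have h2' := sum_sub (f := fun y => u ms y (-(D + dy))) (fun x => u_nonneg _ _ _)
          (c := (g : ℤ) + 1 - 1 - dx) (e := e - 1 - dx) (c' := (adj dx (g - 1) : ℤ) + 1)
          (e' := e - 1 - dx) (by
            unfold adj
            omega) le_rfl
      linarith

end Pool.Agent.W2helper90.Zombie
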