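import Pool.Agent.W2helper90.Zombie.Game
import Pool.Agent.W2helper90.Zombie.Count

/-!
# The toroidal grid
-/

set_option autoImplicit false

namespace Pool.Agent.W2helper90.ZombieGame

open Finset Pool.Agent.W2helper90.Zombie

/-- The toroidal grid, the vertices written as elements of `ZMod (m + 3)`. -/
def TG (m : ℕ) : SimpleGraph (ZMod (m + 3) × ZMod (m + 3)) := torus (m + 3)

theorem TG_adj (m : ℕ) (x y : ZMod (m + 3) × ZMod (m + 3)) : (TG m).Adj x y ↔
    ((x.1 - y.1 = 1 ∨ y.1 - x.1 = 1) ∧ x.2 = y.2 ∨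
      (x.2 - y.2 = 1 ∨ y.2 - x.2 = 1) ∧ x.1 = y.1) := by
  unfold TG torus
  exact SimpleGraph.boxProd_adj

/-- distance to `0` in the cycle -/
def cy {m : ℕ} (a : ZMod (m + 3)) : ℕ := a.valMinAbs.natAbs

theorem cy_cast {m : ℕ} (z : ℤ) (h1 : -((m : ℤ) + 3) ≤ 2 * z) (h2 : 2 * z ≤ m + 3) :
    cy (z : ZMod (m + 3)) = z.natAbs := by
  unfold cy
  rcases h1.eq_or_lt with h1 | h1
  · have h3 : ((z : ℤ) : ZMod (m + 3)) = ((-z : ℤ) : ZMod (m + 3)) := by
      rw [ZMod.intCast_eq_intCast_iff_dvd_sub]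
      refine ⟨1, ?_⟩
      push_cast
      linarith
    have h4 : ((z : ℤ) : ZMod (m + 3)).valMinAbs = -z := by
      rw [ZMod.valMinAbs_spec]
      refine ⟨h3, ?_⟩
      simp only [Set.mem_Ioc]
      push_cast
      constructor <;> linarith
    rw [h4, Int.natAbs_neg]
  · have h4 : ((z : ℤ) : ZMod (m + 3)).valMinAbs = z := by
      rw [ZMod.valMinAbs_spec]
      refine ⟨rfl, ?_⟩
      simp only [Set.mem_Ioc]
      push_cast
      constructor <;> linarith
    rw [h4]

theorem cy_repr {m : ℕ} (a : ZMod (m + 3)) :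
    ∃ z : ℤ, a = (z : ZMod (m + 3)) ∧ -((m : ℤ) + 3) < 2 * z ∧ 2 * z ≤ m + 3 ∧ cy a = z.natAbs := by
  refine ⟨a.valMinAbs, (ZMod.coe_valMinAbs a).symm, ?_, ?_, rfl⟩
  · have := (ZMod.valMinAbs_mem_Ioc a).1
    push_cast at this
    linarith
  · have := (ZMod.valMinAbs_mem_Ioc a).2
    push_cast at this
    linarith

theorem cy_add_le {m : ℕ} (a : ZMod (m + 3)) (e : ℤ) (he : e = 1 ∨ e = -1) :
    cy (a + (e : ZMod (m + 3))) ≤ cy a + 1 := by
  obtain ⟨z, hz, h1, h2, h3⟩ := cy_repr a
  rw [h3, hz, ← Int.cast_add]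
  by_cases hA : -((m : ℤ) + 3) ≤ 2 * (z + e) ∧ 2 * (z + e) ≤ m + 3
  · rw [cy_cast _ hA.1 hA.2]
    omega
  · by_cases hB : 2 * (z + e) ≤ m + 3
    · have h4 : ((z + e : ℤ) : ZMod (m + 3)) = ((z + e + (m + 3) : ℤ) : ZMod (m + 3)) := by
        rw [ZMod.intCast_eq_intCast_iff_dvd_sub]
        exact ⟨1, by push_cast; ring⟩
      rw [h4, cy_cast _ (by omega) (by omega)]
      omega
    · have h4 : ((z + e : ℤ) : ZMod (m + 3)) = ((z + e - (m + 3) : ℤ) : ZMod (m + 3)) := by
        rw [ZMod.intCast_eq_intCast_iff_dvd_sub]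
        exact ⟨-1, by push_cast; ring⟩
      rw [h4, cy_cast _ (by omega) (by omega)]
      omega

theorem cy_zero {m : ℕ} : cy (0 : ZMod (m + 3)) = 0 := by
  have := cy_cast (m := m) 0 (by omega) (by omega)
  simpa using this

theorem cy_eq_zero {m : ℕ} {a : ZMod (m + 3)} (h : cy a = 0) : a = 0 := by
  obtain ⟨z, hz, h1, h2, h3⟩ := cy_repr a
  have : z = 0 := by omega
  rw [hz, this, Int.cast_zero]

theorem exists_closer {m : ℕ} {a : ZMod (m + 3)} (h : cy a ≠ 0) :
    ∃ e : ℤ, (e = 1 ∨ e = -1) ∧ cy (a + (e : ZMod (m + 3))) + 1 = cy a := by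
  obtain ⟨z, hz, h1, h2, h3⟩ := cy_repr a
  rcases lt_trichotomy z 0 with h0 | h0 | h0
  · refine ⟨1, Or.inl rfl, ?_⟩
    rw [h3, hz, ← Int.cast_add, cy_cast _ (by omega) (by omega)]
    omega
  · exfalso
    rw [h3, h0] at h
    simp at h
  · refine ⟨-1, Or.inr rfl, ?_⟩
    rw [h3, hz, ← Int.cast_add, cy_cast _ (by omega) (by omega)]
    omega

/-- distance in the torus -/
def td {m : ℕ} (x y : ZMod (m + 3) × ZMod (m + 3)) : ℕ := cy (x.1 - y.1) + cy (x.2 - y.2)

theorem td_adj {m : ℕ} {x x' : ZMod (m + 3) × ZMod (m + 3)} (y : ZMod (m + 3) × ZMod (m + 3))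
    (h : (TG m).Adj x x') : td x y ≤ td x' y + 1 := by
  rw [TG_adj] at h
  unfold td
  rcases h with ⟨h | h, h'⟩ | ⟨h | h, h'⟩
  · have h1 := cy_add_le (x'.1 - y.1) 1 (Or.inl rfl)
    have h2 : x'.1 - y.1 + ((1 : ℤ) : ZMod (m + 3)) = x.1 - y.1 := by
      push_cast
      rw [← h]
      ring
    rw [h2] at h1
    rw [h']
    omega
  · have h1 := cy_add_le (x'.1 - y.1) (-1) (Or.inr rfl)
    have h2 : x'.1 - y.1 + ((-1 : ℤ) : ZMod (m + 3)) = x.1 - y.1 := by
      push_cast
      rw [← h]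
      ring
    rw [h2] at h1
    rw [h']
    omega
  · have h1 := cy_add_le (x'.2 - y.2) 1 (Or.inl rfl)
    have h2 : x'.2 - y.2 + ((1 : ℤ) : ZMod (m + 3)) = x.2 - y.2 := by
      push_cast
      rw [← h]
      ring
    rw [h2] at h1
    rw [h']
    omega
  · have h1 := cy_add_le (x'.2 - y.2) (-1) (Or.inr rfl)
    have h2 : x'.2 - y.2 + ((-1 : ℤ) : ZMod (m + 3)) = x.2 - y.2 := by
      push_cast
      rw [← h]
      ring
    rw [h2] at h1
    rw [h']
    omega

theorem td_le_length {m : ℕ} {x y : ZMod (m + 3) × ZMod (m + 3)} (p : (TG m).Walk x y) :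
    td x y ≤ p.length := by
  induction p with
  | nil => simp [td, cy_zero]
  | cons h p ih =>
    rw [SimpleGraph.Walk.length_cons]
    exact (td_adj _ h).trans (by omega)

theorem exists_walk {m : ℕ} (y : ZMod (m + 3) × ZMod (m + 3)) (k : ℕ) :
    ∀ x, td x y = k → ∃ p : (TG m).Walk x y, p.length = k := by
  induction k with
  | zero =>
    intro x hx
    unfold td at hx
    have h1 : cy (x.1 - y.1) = 0 := by omega
    have h2 : cy (x.2 - y.2) = 0 := by omega
    have h3 : x = y := Prod.ext (sub_eq_zero.mp (cy_eq_zero h1)) (sub_eq_zero.mp (cy_eq_zero h2))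
    subst h3
    exact ⟨SimpleGraph.Walk.nil, rfl⟩
  | succ k ih =>
    intro x hx
    by_cases h1 : cy (x.1 - y.1) = 0
    · have h2 : cy (x.2 - y.2) ≠ 0 := by unfold td at hx; omega
      obtain ⟨e, he, h3⟩ := exists_closer h2
      have hadj : (TG m).Adj x (x.1, x.2 + (e : ZMod (m + 3))) := by
        rw [TG_adj]
        right
        refine ⟨?_, rfl⟩
        rcases he with he | he
        · right; simp [he]
        · left; simp [he]
      have h4 : td (x.1, x.2 + (e : ZMod (m + 3))) y = k := by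
        unfold td at hx ⊢
        simp only
        rw [show x.2 + (e : ZMod (m + 3)) - y.2 = x.2 - y.2 + (e : ZMod (m + 3)) by ring]
        omega
      obtain ⟨p, hp⟩ := ih _ h4
      exact ⟨SimpleGraph.Walk.cons hadj p, by rw [SimpleGraph.Walk.length_cons, hp]⟩
    · obtain ⟨e, he, h3⟩ := exists_closer h1
      have hadj : (TG m).Adj x (x.1 + (e : ZMod (m + 3)), x.2) := by
        rw [TG_adj]
        left
        refine ⟨?_, rfl⟩
        rcases he with he | he
        · right; simp [he]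
        · left; simp [he]
      have h4 : td (x.1 + (e : ZMod (m + 3)), x.2) y = k := by
        unfold td at hx ⊢
        simp only
        rw [show x.1 + (e : ZMod (m + 3)) - y.1 = x.1 - y.1 + (e : ZMod (m + 3)) by ring]
        omega
      obtain ⟨p, hp⟩ := ih _ h4
      exact ⟨SimpleGraph.Walk.cons hadj p, by rw [SimpleGraph.Walk.length_cons, hp]⟩

theorem TG_dist {m : ℕ} (x y : ZMod (m + 3) × ZMod (m + 3)) : (TG m).dist x y = td x y := by
  apply le_antisymm
  · obtain ⟨p, hp⟩ := exists_walk y _ x rfl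
    rw [← hp]
    exact SimpleGraph.dist_le p
  · obtain ⟨p, hp⟩ := exists_walk y _ x rfl
    have hr : (TG m).Reachable x y := ⟨p⟩
    obtain ⟨q, hq⟩ := hr.exists_walk_length_eq_dist
    rw [← hq]
    exact td_le_length q

/-- the vertex with relative position `(a, b)` -/
def pt {m : ℕ} (s : ZMod (m + 3) × ZMod (m + 3)) (a b : ℤ) : ZMod (m + 3) × ZMod (m + 3) :=
  (s.1 + (a : ZMod (m + 3)), s.2 + (b : ZMod (m + 3)))

theorem pt_pt {m : ℕ} (s : ZMod (m + 3) × ZMod (m + 3)) (a b c d : ℤ) :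
    pt (pt s a b) c d = pt s (a + c) (b + d) := by
  unfold pt
  push_cast
  simp [add_assoc]

theorem td_pt {m : ℕ} (s : ZMod (m + 3) × ZMod (m + 3)) (a b : ℤ) :
    td (pt s a b) s = cy (a : ZMod (m + 3)) + cy (b : ZMod (m + 3)) := by
  unfold td pt
  simp

theorem pt_inj {m : ℕ} (s : ZMod (m + 3) × ZMod (m + 3)) {a b c d : ℤ} (h : pt s a b = pt s c d)
    (h1 : |a - c| < m + 3) (h2 : |b - d| < m + 3) : a = c ∧ b = d := by
  unfold pt at h
  rw [Prod.mk.injEq] at h
  have e1 := add_left_cancel h.1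
  have e2 := add_left_cancel h.2
  rw [ZMod.intCast_eq_intCast_iff_dvd_sub] at e1 e2
  have f1 := Int.eq_zero_of_abs_lt_dvd e1 (by rw [abs_sub_comm]; push_cast; exact h1)
  have f2 := Int.eq_zero_of_abs_lt_dvd e2 (by rw [abs_sub_comm]; push_cast; exact h2)
  constructor <;> omega

theorem TG_adj_pt {m : ℕ} (x y : ZMod (m + 3) × ZMod (m + 3)) :
    (TG m).Adj x y ↔ y = pt x 1 0 ∨ y = pt x (-1) 0 ∨ y = pt x 0 1 ∨ y = pt x 0 (-1) := by
  rw [TG_adj]
  obtain ⟨x1, x2⟩ := x
  obtain ⟨y1, y2⟩ := y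
  unfold pt
  simp only [Prod.mk.injEq]
  push_cast
  simp only [add_zero]
  constructor
  · rintro (⟨h | h, h'⟩ | ⟨h | h, h'⟩)
    · right; left; exact ⟨by rw [← h]; ring, h'.symm⟩
    · left; exact ⟨by rw [← h]; ring, h'.symm⟩
    · right; right; right; exact ⟨h'.symm, by rw [← h]; ring⟩
    · right; right; left; exact ⟨h'.symm, by rw [← h]; ring⟩
  · rintro (⟨h, h'⟩ | ⟨h, h'⟩ | ⟨h, h'⟩ | ⟨h, h'⟩)
    · left; exact ⟨Or.inr (by rw [h]; ring), h'.symm⟩
    · left; exact ⟨Or.inl (by rw [h]; ring), h'.symm⟩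
    · right; exact ⟨Or.inr (by rw [h']; ring), h.symm⟩
    · right; exact ⟨Or.inl (by rw [h']; ring), h.symm⟩

theorem nb_card {m : ℕ} (s : ZMod (m + 3) × ZMod (m + 3)) : (nb (TG m) s).card ≤ 5 := by
  have h : nb (TG m) s ⊆ {s, pt s 1 0, pt s (-1) 0, pt s 0 1, pt s 0 (-1)} := by
    intro y hy
    have hy' : y = s ∨ (TG m).Adj s y := by simpa [nb] using hy
    rw [TG_adj_pt] at hy'
    simp only [Finset.mem_insert, Finset.mem_singleton]
    exact hy'
  exact (Finset.card_le_card h).trans Finset.card_le_five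

/-! ### The zombie's moves -/

theorem mem_closer {m : ℕ} (s x y : ZMod (m + 3) × ZMod (m + 3)) :
    y ∈ closer (TG m) s x ↔ (TG m).Adj x y ∧ td x s = td y s + 1 := by
  simp [closer, TG_dist]

theorem cy_one_step {m : ℕ} {a e : ℤ} (he : e = 1 ∨ e = -1) (h : 2 * (|a| + 1) < m + 3) :
    cy (((a + e : ℤ)) : ZMod (m + 3)) = (a + e).natAbs := by
  apply cy_cast
  · have := neg_abs_le a
    omega
  · have := le_abs_self a
    omega

theorem cy_self {m : ℕ} {a : ℤ} (h : 2 * (|a| + 1) < m + 3) :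
    cy ((a : ℤ) : ZMod (m + 3)) = a.natAbs := by
  apply cy_cast
  · have := neg_abs_le a
    omega
  · have := le_abs_self a
    omega

theorem closer_iff {m : ℕ} (s : ZMod (m + 3) × ZMod (m + 3)) {a b : ℤ}
    (ha : 2 * (|a| + 1) < m + 3) (hb : 2 * (|b| + 1) < m + 3) (y : ZMod (m + 3) × ZMod (m + 3)) :
    y ∈ closer (TG m) s (pt s a b) ↔
      (a ≠ 0 ∧ y = pt s (tow a) b) ∨ (b ≠ 0 ∧ y = pt s a (tow b)) := by
  rw [mem_closer, TG_adj_pt]
  have hta : ∀ {a : ℤ}, 0 < a → tow a = a + -1 := fun {a} h => by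
    unfold tow; rw [Int.sign_eq_one_of_pos h]; ring
  have htb : ∀ {a : ℤ}, a < 0 → tow a = a + 1 := fun {a} h => by
    unfold tow; rw [Int.sign_eq_neg_one_of_neg h]; ring
  constructor
  · rintro ⟨h, h'⟩
    rw [td_pt, cy_self ha, cy_self hb] at h'
    rcases h with h | h | h | h
    · rw [h, pt_pt, td_pt, cy_one_step (Or.inl rfl) ha, add_zero, cy_self hb] at h'
      left
      have h0 : a < 0 := by omega
      refine ⟨h0.ne, ?_⟩
      rw [h, pt_pt, htb h0, add_zero]
    · rw [h, pt_pt, td_pt, cy_one_step (Or.inr rfl) ha, add_zero, cy_self hb] at h'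
      left
      have h0 : 0 < a := by omega
      refine ⟨h0.ne', ?_⟩
      rw [h, pt_pt, hta h0, add_zero]
    · rw [h, pt_pt, td_pt, cy_one_step (Or.inl rfl) hb, add_zero, cy_self ha] at h'
      right
      have h0 : b < 0 := by omega
      refine ⟨h0.ne, ?_⟩
      rw [h, pt_pt, htb h0, add_zero]
    · rw [h, pt_pt, td_pt, cy_one_step (Or.inr rfl) hb, add_zero, cy_self ha] at h'
      right
      have h0 : 0 < b := by omega
      refine ⟨h0.ne', ?_⟩
      rw [h, pt_pt, hta h0, add_zero]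
  · rintro (⟨h0, h⟩ | ⟨h0, h⟩)
    · rcases lt_or_gt_of_ne h0 with h0 | h0
      · rw [htb h0] at h
        refine ⟨Or.inl (by rw [h, pt_pt, add_zero]), ?_⟩
        rw [h, td_pt, td_pt, cy_self ha, cy_self hb, cy_one_step (Or.inl rfl) ha]
        omega
      · rw [hta h0] at h
        refine ⟨Or.inr (Or.inl (by rw [h, pt_pt, add_zero])), ?_⟩
        rw [h, td_pt, td_pt, cy_self ha, cy_self hb, cy_one_step (Or.inr rfl) ha]
        omega
    · rcases lt_or_gt_of_ne h0 with h0 | h0
      · rw [htb h0] at h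
        refine ⟨Or.inr (Or.inr (Or.inl (by rw [h, pt_pt, add_zero]))), ?_⟩
        rw [h, td_pt, td_pt, cy_self ha, cy_self hb, cy_one_step (Or.inl rfl) hb]
        omega
      · rw [hta h0] at h
        refine ⟨Or.inr (Or.inr (Or.inr (by rw [h, pt_pt, add_zero]))), ?_⟩
        rw [h, td_pt, td_pt, cy_self ha, cy_self hb, cy_one_step (Or.inr rfl) hb]
        omega

theorem sum_step_eq {V : Type} [Fintype V] [DecidableEq V] (G : SimpleGraph V) (s x : V)
    (f : V → ℝ) (F : Finset V) (hF : ∀ y, y ∈ closer G s x ↔ y ∈ F) :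
    ∑ y, step G s x y * f y = 1 / (F.card : ℝ) * ∑ y ∈ F, f y := by
  have h : closer G s x = F := Finset.ext hF
  unfold step
  rw [h, Finset.mul_sum]
  simp only [ite_mul, zero_mul]
  rw [Finset.sum_ite_mem, Finset.univ_inter]

theorem sum_step {m : ℕ} (s : ZMod (m + 3) × ZMod (m + 3)) {a b : ℤ}
    (ha : 2 * (|a| + 1) < m + 3) (hb : 2 * (|b| + 1) < m + 3) (h0 : ¬(a = 0 ∧ b = 0))
    (f : ZMod (m + 3) × ZMod (m + 3) → ℝ) :
    ∑ y, step (TG m) s (pt s a b) y * f y = K (fun p q => f (pt s p q)) a b := by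
  unfold K
  by_cases h1 : a = 0
  · have h2 : b ≠ 0 := fun h => h0 ⟨h1, h⟩
    rw [if_pos h1, if_neg h2]
    rw [sum_step_eq _ _ _ _ {pt s 0 (tow b)}]
    · simp
    · intro y
      rw [closer_iff s ha hb, Finset.mem_singleton]
      simp [h1, h2]
  · rw [if_neg h1]
    by_cases h2 : b = 0
    · rw [if_pos h2]
      rw [sum_step_eq _ _ _ _ {pt s (tow a) 0}]
      · simp
      · intro y
        rw [closer_iff s ha hb, Finset.mem_singleton]
        simp [h1, h2]
    · rw [if_neg h2]
      have hne : pt s (tow a) b ≠ pt s a (tow b) := by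
        intro h
        have := pt_inj s h (by
          rw [show tow a - a = -a.sign by unfold tow; ring, abs_neg]
          have : |a.sign| ≤ 1 := by
            rcases lt_trichotomy a 0 with h | h | h
            · rw [Int.sign_eq_neg_one_of_neg h]; norm_num
            · rw [h]; norm_num
            · rw [Int.sign_eq_one_of_pos h]; norm_num
          omega) (by
          rw [show b - tow b = b.sign by unfold tow; ring]
          have : |b.sign| ≤ 1 := by
            rcases lt_trichotomy b 0 with h | h | h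
            · rw [Int.sign_eq_neg_one_of_neg h]; norm_num
            · rw [h]; norm_num
            · rw [Int.sign_eq_one_of_pos h]; norm_num
          omega)
        have h3 : a.sign = 0 := by
          have := this.1
          unfold tow at this
          omega
        exact h1 (Int.sign_eq_zero_iff_zero.mp h3)
      rw [sum_step_eq _ _ _ _ {pt s (tow a) b, pt s a (tow b)}]
      · rw [Finset.card_pair hne, Finset.sum_pair hne]
        push_cast
        ring
      · intro y
        rw [closer_iff s ha hb, Finset.mem_insert, Finset.mem_singleton]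
        simp [h1, h2]

theorem K_congr {w w' : ℤ → ℤ → ℝ} {a b : ℤ}
    (h : ∀ p q, |p| ≤ |a| → |q| ≤ |b| → w p q = w' p q) : K w a b = K w' a b := by
  have ht : ∀ c : ℤ, |tow c| ≤ |c| := by
    intro c
    rw [tow_abs]
    split_ifs <;> omega
  unfold K
  by_cases h1 : a = 0
  · subst h1
    rw [if_pos rfl, if_pos rfl]
    by_cases h2 : b = 0
    · rw [if_pos h2, if_pos h2]
    · rw [if_neg h2, if_neg h2, h 0 (tow b) le_rfl (ht b)]
  · rw [if_neg h1, if_neg h1]
    by_cases h2 : b = 0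
    · subst h2
      rw [if_pos rfl, if_pos rfl, h (tow a) 0 (ht a) le_rfl]
    · rw [if_neg h2, if_neg h2, h (tow a) b (ht a) le_rfl, h a (tow b) le_rfl (ht b)]

theorem K_one_sub {w : ℤ → ℤ → ℝ} {a b : ℤ} (h0 : ¬(a = 0 ∧ b = 0)) :
    K (fun p q => 1 - w p q) a b = 1 - K w a b := by
  unfold K
  by_cases h1 : a = 0
  · have h2 : b ≠ 0 := fun h => h0 ⟨h1, h⟩
    rw [if_pos h1, if_pos h1, if_neg h2, if_neg h2]
  · rw [if_neg h1, if_neg h1]
    by_cases h2 : b = 0
    · rw [if_pos h2, if_pos h2]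
    · rw [if_neg h2, if_neg h2]
      ring

theorem exists_moves {m : ℕ} (π : List (ZMod (m + 3) × ZMod (m + 3))) : ∀ s, IsPath (TG m) s π →
    ∃ ms : List (ℤ × ℤ), ms.length = π.length ∧ (∀ x ∈ ms, IsMove x) ∧
      ∀ a b : ℤ, 2 * (|a| + π.length + 1) < m + 3 → 2 * (|b| + π.length + 1) < m + 3 →
        avoid (TG m) s π (pt s a b) = 1 - u ms a b := by
  induction π with
  | nil =>
    intro s _
    refine ⟨[], rfl, by simp, ?_⟩
    intro a b ha hb
    simp only [List.length_nil, Nat.cast_zero, add_zero] at ha hb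
    have h0a := abs_nonneg a
    have h0b := abs_nonneg b
    have hs : pt s a b = s ↔ (a = 0 ∧ b = 0) := by
      constructor
      · intro h
        have h' : pt s a b = pt s 0 0 := by
          rw [h]; simp [pt]
        exact pt_inj s h' (by rw [sub_zero]; omega) (by rw [sub_zero]; omega)
      · rintro ⟨h1, h2⟩
        simp [h1, h2, pt]
    simp only [avoid, u, hs]
    split_ifs <;> norm_num
  | cons s' π ih =>
    intro s hpath
    obtain ⟨hstep, hpath⟩ := hpath
    obtain ⟨ms, hlen, hms, hav⟩ := ih s' hpath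
    have hm : ∃ mv : ℤ × ℤ, IsMove mv ∧ s' = pt s mv.1 mv.2 := by
      rcases hstep with h | h
      · exact ⟨(0, 0), by simp [IsMove], by rw [h]; simp [pt]⟩
      · rw [TG_adj_pt] at h
        rcases h with h | h | h | h
        · exact ⟨(1, 0), by simp [IsMove], h⟩
        · exact ⟨(-1, 0), by simp [IsMove], h⟩
        · exact ⟨(0, 1), by simp [IsMove], h⟩
        · exact ⟨(0, -1), by simp [IsMove], h⟩
    obtain ⟨mv, hmv, hs'⟩ := hm
    refine ⟨mv :: ms, by simp [hlen], ?_, ?_⟩
    · intro x hx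
      rcases List.mem_cons.mp hx with h | h
      · rw [h]; exact hmv
      · exact hms x h
    intro a b ha hb
    simp only [List.length_cons, Nat.cast_add, Nat.cast_one] at ha hb
    have h0a := abs_nonneg a
    have h0b := abs_nonneg b
    have hs : ∀ p q : ℤ, |p| ≤ |a| → |q| ≤ |b| → (pt s p q = s ↔ (p = 0 ∧ q = 0)) := by
      intro p q hp hq
      constructor
      · intro h
        have h' : pt s p q = pt s 0 0 := by
          rw [h]; simp [pt]
        exact pt_inj s h' (by rw [sub_zero]; omega) (by rw [sub_zero]; omega)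
      · rintro ⟨h1, h2⟩
        simp [h1, h2, pt]
    simp only [avoid, u]
    by_cases h0 : a = 0 ∧ b = 0
    · rw [if_pos ((hs a b le_rfl le_rfl).mpr h0), if_pos h0]
      ring
    · rw [if_neg (fun h => h0 ((hs a b le_rfl le_rfl).mp h)), if_neg h0]
      rw [sum_step s (by omega) (by omega) h0, ← K_one_sub h0]
      apply K_congr
      intro p q hp hq
      have hb1 := hmv.bound
      have hb2 := abs_nonneg mv.1
      have hb3 := abs_nonneg mv.2
      by_cases hpq : p = 0 ∧ q = 0
      · rw [if_pos ((hs p q hp hq).mpr hpq), if_pos hpq]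
        ring
      · rw [if_neg (fun h => hpq ((hs p q hp hq).mp h)), if_neg hpq]
        have h1 : pt s p q = pt s' (p - mv.1) (q - mv.2) := by
          rw [hs', pt_pt]
          congr 1 <;> ring
        rw [h1]
        apply hav
        · have := abs_sub p mv.1
          omega
        · have := abs_sub q mv.2
          omega

theorem sum_avoid_le {m : ℕ} (π : List (ZMod (m + 3) × ZMod (m + 3)))
    (s : ZMod (m + 3) × ZMod (m + 3)) (hpath : IsPath (TG m) s π)
    (hT : 2 * (3 * π.length + 1) < m + 3) :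
    ∑ x, avoid (TG m) s π x ≤
      ((m : ℝ) + 3) ^ 2 - (1 + π.length * Real.sqrt π.length / 4) := by
  obtain ⟨ms, hlen, hms, hav⟩ := exists_moves π s hpath
  have hN := NN_ge ms hms (2 * π.length) (by rw [hlen])
  rw [hlen] at hN
  have hcard : (Fintype.card (ZMod (m + 3) × ZMod (m + 3)) : ℝ) = ((m : ℝ) + 3) ^ 2 := by
    rw [Fintype.card_prod, ZMod.card]
    push_cast
    ring
  have h1 : ∑ x, avoid (TG m) s π x = ((m : ℝ) + 3) ^ 2 - ∑ x, (1 - avoid (TG m) s π x) := by
    rw [Finset.sum_sub_distrib, Finset.sum_const, Finset.card_univ, nsmul_eq_mul, mul_one, hcard]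
    ring
  rw [h1]
  have h2 : NN ms (2 * π.length) ≤ ∑ x, (1 - avoid (TG m) s π x) := by
    have h3 : NN ms (2 * π.length) = ∑ p ∈ Finset.Icc (-(2 * π.length : ℤ)) (2 * π.length) ×ˢ
        Finset.Icc (-(2 * π.length : ℤ)) (2 * π.length), (1 - avoid (TG m) s π (pt s p.1 p.2)) := by
      unfold NN
      rw [Finset.sum_product]
      apply Finset.sum_congr rfl
      intro a ha
      apply Finset.sum_congr rfl
      intro b hb
      rw [Finset.mem_Icc] at ha hb
      have h4 := hav a b (by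
        have : |a| ≤ 2 * π.length := abs_le.mpr ⟨by omega, by omega⟩
        omega) (by
        have : |b| ≤ 2 * π.length := abs_le.mpr ⟨by omega, by omega⟩
        omega)
      rw [h4]
      ring
    rw [h3]
    have hinj : Set.InjOn (fun p : ℤ × ℤ => pt s p.1 p.2)
        ((Finset.Icc (-(2 * π.length : ℤ)) (2 * π.length) ×ˢ
        Finset.Icc (-(2 * π.length : ℤ)) (2 * π.length) : Finset (ℤ × ℤ)) : Set (ℤ × ℤ)) := by
      intro p hp q hq h
      simp only [Finset.coe_product, Set.mem_prod, Finset.mem_coe, Finset.mem_Icc] at hp hq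
      have := pt_inj s h (by rw [abs_lt]; constructor <;> omega)
        (by rw [abs_lt]; constructor <;> omega)
      exact Prod.ext this.1 this.2
    rw [← Finset.sum_image (f := fun x => 1 - avoid (TG m) s π x) hinj]
    apply Finset.sum_le_sum_of_subset_of_nonneg (Finset.subset_univ _)
    intro x _ _
    have := avoid_le_one (TG m) π s x
    linarith
  linarith

end Pool.Agent.W2helper90.ZombieGame
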